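import Mathlib

open scoped ENNReal NNReal

namespace Pool.Agent.helper59.DelayedServer

universe u v

/-- An online problem with requests of type `R`: states, an initial state, the relation
`step s r t` saying that in state `s` the request `r` may be served by passing to state `t`,
and the cost of passing from one state to another. -/
structure OnlineProblem (R : Type u) where
  /-- the states -/
  State : Type v
  /-- the initial state -/
  init : State
  /-- `step s r t`: request `r` may be served from state `s` by passing to state `t` -/
  step : State → R → State → Prop
  /-- the cost of passing from a state to a state -/
  cost : State → State → ℝ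

namespace OnlineProblem

variable {R : Type u} (P : OnlineProblem.{u, v} R)

/-- A deterministic online algorithm. Request sequences are lists with the newest request
first; `A h` is the state after the requests `h`, so it depends on `h` only. -/
def IsAlgorithm (A : List R → P.State) : Prop :=
  A [] = P.init ∧ ∀ (h : List R) (r : R), P.step (A h) r (A (r :: h))

/-- The cost of an online algorithm on a request sequence (newest request first). -/
def algCost (A : List R → P.State) : List R → ℝ
  | [] => 0
  | r :: h => algCost A h + P.cost (A h) (A (r :: h))

/-- `P.Offline h s c`: the request sequence `h` (newest request first) can be served by some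
schedule that starts in the initial state, ends in state `s` and has total cost `c`. -/
inductive Offline : List R → P.State → ℝ → Prop
  | start : Offline [] P.init 0
  | serve {h : List R} {s : P.State} {c : ℝ} (r : R) (t : P.State) :
      Offline h s c → P.step s r t → Offline (r :: h) t (c + P.cost s t)

/-- The optimal offline cost of a request sequence. -/
noncomputable def opt (h : List R) : ℝ := sInf {c : ℝ | ∃ s, P.Offline h s c}

/-- The algorithm `A` is `C`-competitive. -/
def IsCompetitive (A : List R → P.State) (C : ℝ) : Prop :=
  ∃ K : ℝ, ∀ h : List R, P.algCost A h ≤ C * P.opt h + K

/-- The competitiveness of the problem: the infimum of the `C ≥ 0` for which some online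
algorithm is `C`-competitive (and `∞` if there is none). -/
noncomputable def competitiveness : ℝ≥0∞ :=
  ⨅ (C : ℝ≥0) (_ : ∃ A, P.IsAlgorithm A ∧ P.IsCompetitive A (C : ℝ)), (C : ℝ≥0∞)

end OnlineProblem

variable {M : Type u} [MetricSpace M] {k : ℕ}

/-- The total distance travelled by `k` labelled servers moving from `x` to `y`. -/
noncomputable def moveCost (x y : Fin k → M) : ℝ := ∑ i, dist (x i) (y i)

/-- The `k`-server problem in `M` with initial configuration `x₀`: after a request `r` some
server must be at `r`. -/
noncomputable def kServer (x₀ : Fin k → M) : OnlineProblem.{u, u} M where
  State := Fin k → M
  init := x₀
  step _ r y := ∃ i, y i = r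
  cost := moveCost

/-- Version (a) of the delayed `k`-server problem. A state is a configuration together with
the frozen server, i.e. the server that served the latest request (initially the designated
server `f₀`). The frozen server does not move during the next step; it may serve the next
request if that request is at its place. -/
noncomputable def delayedA (x₀ : Fin k → M) (f₀ : Fin k) : OnlineProblem.{u, u} M where
  State := (Fin k → M) × Fin k
  init := (x₀, f₀)
  step s r t := t.1 t.2 = r ∧ t.1 s.2 = s.1 s.2
  cost s t := moveCost s.1 t.1

/-- Version (b) of the delayed `k`-server problem: the frozen server neither moves nor serves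
the next request, not even a request at its own place. -/
noncomputable def delayedB (x₀ : Fin k → M) (f₀ : Fin k) : OnlineProblem.{u, u} M where
  State := (Fin k → M) × Fin k
  init := (x₀, f₀)
  step s r t := t.2 ≠ s.2 ∧ t.1 t.2 = r ∧ t.1 s.2 = s.1 s.2
  cost s t := moveCost s.1 t.1

end Pool.Agent.helper59.DelayedServer
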