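import Mathlib
import Pool.Agent.helper59.DelayedDefs

open scoped ENNReal NNReal

namespace Pool.Agent.helper59.DelayedServer

universe u v

namespace OnlineProblem

variable {R : Type u} {P : OnlineProblem.{u, v} R}

theorem IsAlgorithm.offline {A : List R → P.State} (hA : P.IsAlgorithm A) (h : List R) :
    P.Offline h (A h) (P.algCost A h) := by
  induction h with
  | nil =>
    rw [hA.1]
    exact Offline.start
  | cons r h ih => exact Offline.serve r _ ih (hA.2 h r)

theorem Offline.induct {motive : List R → P.State → ℝ → Prop} (h0 : motive [] P.init 0)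
    (h1 : ∀ (h : List R) (s : P.State) (c : ℝ) (r : R) (t : P.State), P.Offline h s c →
      P.step s r t → motive h s c → motive (r :: h) t (c + P.cost s t))
    {h : List R} {s : P.State} {c : ℝ} (H : P.Offline h s c) : motive h s c := by
  induction H with
  | start => exact h0
  | serve r t hs hst ih => exact h1 _ _ _ r t hs hst ih

theorem Offline.nonneg (hc : ∀ s t, 0 ≤ P.cost s t) {h : List R} {s : P.State} {c : ℝ}
    (H : P.Offline h s c) : 0 ≤ c := by
  induction H with
  | start => exact le_rfl
  | serve r t _ _ ih => exact add_nonneg ih (hc _ _)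

theorem bddBelow_offline (hc : ∀ s t, 0 ≤ P.cost s t) (h : List R) :
    BddBelow {c : ℝ | ∃ s, P.Offline h s c} :=
  ⟨0, fun _ ⟨_, H⟩ => H.nonneg hc⟩

theorem opt_le (hc : ∀ s t, 0 ≤ P.cost s t) {h : List R} {s : P.State} {c : ℝ}
    (H : P.Offline h s c) : P.opt h ≤ c :=
  csInf_le (bddBelow_offline hc h) ⟨s, H⟩

theorem le_opt {A : List R → P.State} (hA : P.IsAlgorithm A) {h : List R} {x : ℝ}
    (H : ∀ s c, P.Offline h s c → x ≤ c) : x ≤ P.opt h :=
  le_csInf ⟨_, A h, hA.offline h⟩ (fun c ⟨s, hs⟩ => H s c hs)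

theorem competitiveness_le {A : List R → P.State} (hA : P.IsAlgorithm A) (C : ℝ≥0)
    (hC : P.IsCompetitive A (C : ℝ)) : P.competitiveness ≤ (C : ℝ≥0∞) :=
  iInf₂_le C ⟨A, hA, hC⟩

theorem le_competitiveness {x : ℝ≥0∞}
    (H : ∀ (C : ℝ≥0) (A : List R → P.State), P.IsAlgorithm A → P.IsCompetitive A (C : ℝ) →
      x ≤ (C : ℝ≥0∞)) : x ≤ P.competitiveness :=
  le_iInf₂ (fun C ⟨A, hA, hC⟩ => H C A hA hC)

end OnlineProblem

variable {M : Type u} [MetricSpace M] {k : ℕ}

theorem moveCost_nonneg (x y : Fin k → M) : 0 ≤ moveCost x y :=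
  Finset.sum_nonneg (fun _ _ => dist_nonneg)

theorem moveCost_self (x : Fin k → M) : moveCost x x = 0 := by
  simp [moveCost]

theorem moveCost_comm (x y : Fin k → M) : moveCost x y = moveCost y x := by
  simp [moveCost, dist_comm]

theorem moveCost_triangle (x y z : Fin k → M) : moveCost x z ≤ moveCost x y + moveCost y z := by
  unfold moveCost
  rw [← Finset.sum_add_distrib]
  exact Finset.sum_le_sum (fun i _ => dist_triangle _ _ _)

theorem moveCost_update (x : Fin k → M) (i : Fin k) (r : M) :
    moveCost x (Function.update x i r) = dist (x i) r := by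
  unfold moveCost
  rw [Finset.sum_eq_single i]
  · simp
  · intro j _ hj
    rw [Function.update_of_ne hj, dist_self]
  · intro h
    exact absurd (Finset.mem_univ i) h

theorem dist_le_moveCost (x y : Fin k → M) (i : Fin k) : dist (x i) (y i) ≤ moveCost x y :=
  Finset.single_le_sum (f := fun i => dist (x i) (y i)) (fun _ _ => dist_nonneg)
    (Finset.mem_univ i)

end Pool.Agent.helper59.DelayedServer
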