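import Mathlib
import Pool.Agent.helper59.DelayedBasic

open scoped ENNReal NNReal

namespace Pool.Agent.helper59.DelayedServer

universe u

variable {M : Type u} [MetricSpace M] {k : ℕ}

theorem moveCost_update_right (x s : Fin k → M) (i : Fin k) (y : M) :
    moveCost x (Function.update s i y) + dist (x i) (s i) = moveCost x s + dist (x i) y := by
  unfold moveCost
  rw [← Finset.add_sum_erase _ _ (Finset.mem_univ i),
    ← Finset.add_sum_erase _ (fun j => dist (x j) (s j)) (Finset.mem_univ i),
    Function.update_self]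
  have : ∑ j ∈ Finset.univ.erase i, dist (x j) (Function.update s i y j)
      = ∑ j ∈ Finset.univ.erase i, dist (x j) (s j) := by
    refine Finset.sum_congr rfl (fun j hj => ?_)
    rw [Function.update_of_ne (Finset.ne_of_mem_erase hj)]
  rw [this]
  ring

theorem exists_sep (T : Finset M) :
    ∃ m : ℝ, 0 < m ∧ ∀ x ∈ T, ∀ y ∈ T, x ≠ y → m ≤ dist x y := by
  classical
  induction T using Finset.induction_on with
  | empty => exact ⟨1, one_pos, by simp⟩
  | insert a T ha ih =>
    obtain ⟨m, hm, H⟩ := ih
    have : ∃ m' : ℝ, 0 < m' ∧ ∀ x ∈ T, m' ≤ dist a x := by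
      have h0 : ∀ x ∈ T, 0 < dist a x := fun x hx => dist_pos.mpr (fun e => ha (e ▸ hx))
      rcases T.eq_empty_or_nonempty with rfl | hT
      · exact ⟨1, one_pos, by simp⟩
      · obtain ⟨b, hb, hmin⟩ := Finset.exists_min_image T (fun x => dist a x) hT
        exact ⟨dist a b, h0 b hb, hmin⟩
    obtain ⟨m', hm', H'⟩ := this
    refine ⟨min m m', lt_min hm hm', fun x hx y hy hxy => ?_⟩
    rw [Finset.mem_insert] at hx hy
    rcases hx with rfl | hx <;> rcases hy with rfl | hy
    · exact absurd rfl hxy
    · exact (min_le_right _ _).trans (H' y hy)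
    · rw [dist_comm]; exact (min_le_right _ _).trans (H' x hx)
    · exact (min_le_left _ _).trans (H x hx y hy hxy)

open Classical in
/-- The data kept by the adversary of Manasse, McGeoch and Sleator. -/
structure Adv (x₀ : Fin k → M) (A : List M → Fin k → M) (T : Finset M) (K₁ K₂ : ℝ)
    (h : List M) (s : Fin k → M) (y l : M) (D : ℝ) (a : M → ℝ) : Prop where
  inj : Function.Injective s
  sT : ∀ i, s i ∈ T
  yT : y ∈ T
  sy : ∀ i, s i ≠ y
  lT : l ∈ T
  ly : l ≠ y
  alg : moveCost (A h) s + D + dist l y ≤ (kServer x₀).algCost A h + K₁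
  fam : ∀ x ∈ T, x ≠ l → ∃ z : Fin k → M, (∀ p ∈ T, p ≠ x → ∃ i, z i = p) ∧
    (kServer x₀).Offline h z (a x)
  tot : ∑ x ∈ T.filter (· ≠ l), a x ≤ K₂ + D

open Classical in
theorem Adv.next {x₀ : Fin k → M} {A : List M → Fin k → M} {T : Finset M} {K₁ K₂ : ℝ}
    {h : List M} {s : Fin k → M} {y l : M} {D : ℝ} {a : M → ℝ}
    (hA : (kServer x₀).IsAlgorithm A) (H : Adv x₀ A T K₁ K₂ h s y l D a) :
    ∃ s' y' a', Adv x₀ A T K₁ K₂ (y :: h) s' y' y (D + dist l y) a' := by
  obtain ⟨i, hi⟩ : ∃ i, A (y :: h) i = y := hA.2 h y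
  refine ⟨Function.update s i y, s i, fun x => if x = l then a y + dist l y else a x, ?_⟩
  constructor
  · -- injective
    intro p q hpq
    by_cases hp : p = i <;> by_cases hq : q = i
    · rw [hp, hq]
    · rw [hp, Function.update_self, Function.update_of_ne hq] at hpq
      exact absurd hpq.symm (H.sy q)
    · rw [hq, Function.update_self, Function.update_of_ne hp] at hpq
      exact absurd hpq (H.sy p)
    · rw [Function.update_of_ne hp, Function.update_of_ne hq] at hpq
      exact H.inj hpq
  · intro j
    by_cases hj : j = i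
    · rw [hj, Function.update_self]; exact H.yT
    · rw [Function.update_of_ne hj]; exact H.sT j
  · exact H.sT i
  · intro j
    by_cases hj : j = i
    · rw [hj, Function.update_self]; exact (H.sy i).symm
    · rw [Function.update_of_ne hj]
      exact fun e => hj (H.inj e)
  · exact H.yT
  · exact (H.sy i).symm
  · have h1 := moveCost_update_right (A (y :: h)) s i y
    rw [hi, dist_self, add_zero] at h1
    have h2 := moveCost_triangle (A (y :: h)) (A h) s
    rw [moveCost_comm (A (y :: h)) (A h)] at h2
    have h3 := H.alg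
    show moveCost (A (y :: h)) (Function.update s i y) + (D + dist l y) + dist y (s i)
      ≤ (kServer x₀).algCost A h + moveCost (A h) (A (y :: h)) + K₁
    linarith
  · intro x hx hxy
    by_cases hxl : x = l
    · obtain ⟨z, hz, hoff⟩ := H.fam y H.yT H.ly.symm
      obtain ⟨j, hj⟩ := hz l H.lT H.ly
      refine ⟨Function.update z j y, ?_, ?_⟩
      · intro p hp hpx
        by_cases hpy : p = y
        · exact ⟨j, by rw [Function.update_self, hpy]⟩
        · obtain ⟨j', hj'⟩ := hz p hp hpy
          refine ⟨j', ?_⟩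
          rw [Function.update_of_ne, hj']
          rintro rfl
          exact hpx (by rw [← hj', hj, hxl])
      · rw [if_pos hxl]
        have h1 := OnlineProblem.Offline.serve (P := kServer x₀) y (Function.update z j y) hoff
          ⟨j, Function.update_self _ _ _⟩
        have h2 : (kServer x₀).cost z (Function.update z j y) = dist l y := by
          show moveCost z (Function.update z j y) = dist l y
          rw [moveCost_update, hj]
        rw [h2] at h1
        exact h1
    · obtain ⟨z, hz, hoff⟩ := H.fam x hx hxl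
      refine ⟨z, hz, ?_⟩
      rw [if_neg hxl]
      have h1 := OnlineProblem.Offline.serve (P := kServer x₀) y z hoff
        (hz y H.yT (Ne.symm hxy))
      have h2 : (kServer x₀).cost z z = 0 := moveCost_self z
      rw [h2, add_zero] at h1
      exact h1
  · have e1 : T.filter (· ≠ y) = insert l ((T.filter (· ≠ y)).filter (· ≠ l)) := by
      ext x
      simp only [Finset.mem_filter, Finset.mem_insert]
      constructor
      · intro hx
        by_cases hxl : x = l
        · exact Or.inl hxl
        · exact Or.inr ⟨hx, hxl⟩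
      · rintro (rfl | hx)
        · exact ⟨H.lT, H.ly⟩
        · exact hx.1
    have e2 : T.filter (· ≠ l) = insert y ((T.filter (· ≠ y)).filter (· ≠ l)) := by
      ext x
      simp only [Finset.mem_filter, Finset.mem_insert]
      constructor
      · intro hx
        by_cases hxy : x = y
        · exact Or.inl hxy
        · exact Or.inr ⟨⟨hx.1, hxy⟩, hx.2⟩
      · rintro (rfl | hx)
        · exact ⟨H.yT, H.ly.symm⟩
        · exact ⟨hx.1.1, hx.2⟩
    have h3 := H.tot
    rw [e2, Finset.sum_insert (by simp)] at h3
    rw [e1, Finset.sum_insert (by simp), if_pos rfl]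
    have e3 : ∑ x ∈ (T.filter (· ≠ y)).filter (· ≠ l), (if x = l then a y + dist l y else a x)
        = ∑ x ∈ (T.filter (· ≠ y)).filter (· ≠ l), a x := by
      refine Finset.sum_congr rfl (fun x hx => ?_)
      rw [if_neg (Finset.mem_filter.mp hx).2]
    rw [e3]
    linarith

open Classical in
theorem Adv.exists_start (x₀ : Fin k → M) {A : List M → Fin k → M}
    (hA : (kServer x₀).IsAlgorithm A) (g : Fin (k + 1) → M) (hg : Function.Injective g) :
    ∃ K₁ K₂ h s y l a, Adv x₀ A (Finset.univ.image g) K₁ K₂ h s y l 0 a := by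
  set y₀ := g (Fin.last k) with hy₀
  have hs₀ : ∀ i : Fin k, g i.castSucc ≠ y₀ := fun i e =>
    absurd (hg e) (Fin.castSucc_lt_last i).ne
  obtain ⟨i, hi⟩ : ∃ i, A [y₀] i = y₀ := hA.2 [] y₀
  have hmem : ∀ j, g j ∈ Finset.univ.image g := fun j =>
    Finset.mem_image_of_mem g (Finset.mem_univ j)
  have hcov : ∀ x ∈ Finset.univ.image g, x ≠ y₀ → ∃ j : Fin k, g j.castSucc = x := by
    intro x hx hxy
    obtain ⟨j, -, rfl⟩ := Finset.mem_image.mp hx
    refine Fin.lastCases ?_ (fun j hxy => ⟨j, rfl⟩) j hxy
    intro h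
    exact absurd rfl h
  let s : Fin k → M := Function.update (fun j => g j.castSucc) i y₀
  let Z : M → Fin k → M := fun x j => if g j.castSucc = x then y₀ else g j.castSucc
  have hZ : ∀ x ∈ Finset.univ.image g, x ≠ y₀ →
      ∀ p ∈ Finset.univ.image g, p ≠ x → ∃ j, Z x j = p := by
    intro x hx hxy p hp hpx
    by_cases hpy : p = y₀
    · obtain ⟨j, hj⟩ := hcov x hx hxy
      exact ⟨j, by simp only [Z]; rw [if_pos hj, hpy]⟩
    · obtain ⟨j, hj⟩ := hcov p hp hpy
      exact ⟨j, by simp only [Z]; rw [if_neg (by rw [hj]; exact hpx), hj]⟩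
  refine ⟨moveCost (A [y₀]) s + dist y₀ (g i.castSucc) - (kServer x₀).algCost A [y₀],
    ∑ x ∈ (Finset.univ.image g).filter (· ≠ y₀), moveCost x₀ (Z x), [y₀], s, g i.castSucc, y₀,
    fun x => moveCost x₀ (Z x), ?_⟩
  constructor
  · intro p q hpq
    simp only [s] at hpq
    by_cases hp : p = i <;> by_cases hq : q = i
    · rw [hp, hq]
    · rw [hp, Function.update_self, Function.update_of_ne hq] at hpq
      exact absurd hpq.symm (hs₀ q)
    · rw [hq, Function.update_self, Function.update_of_ne hp] at hpq
      exact absurd hpq (hs₀ p)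
    · rw [Function.update_of_ne hp, Function.update_of_ne hq] at hpq
      exact Fin.castSucc_injective k (hg hpq)
  · intro j
    simp only [s]
    by_cases hj : j = i
    · rw [hj, Function.update_self]; exact hmem _
    · rw [Function.update_of_ne hj]; exact hmem _
  · exact hmem _
  · intro j
    simp only [s]
    by_cases hj : j = i
    · rw [hj, Function.update_self]; exact (hs₀ i).symm
    · rw [Function.update_of_ne hj]
      exact fun e => hj (Fin.castSucc_injective k (hg e))
  · exact hmem _
  · exact (hs₀ i).symm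
  · linarith
  · intro x hx hxy
    refine ⟨Z x, hZ x hx hxy, ?_⟩
    have h1 := OnlineProblem.Offline.serve (P := kServer x₀) y₀ (Z x)
      OnlineProblem.Offline.start
      (show ∃ i, Z x i = y₀ from hZ x hx hxy y₀ (hmem _) hxy.symm)
    rw [zero_add] at h1
    exact h1
  · rw [add_zero]

/-- The lower bound of Manasse, McGeoch and Sleator: if `M` has at least `k + 1` points then
the `k`-server problem in `M` has competitiveness at least `k`. -/
theorem le_kServer_competitiveness (g : Fin (k + 1) → M) (hg : Function.Injective g)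
    (x₀ : Fin k → M) : (k : ℝ≥0∞) ≤ (kServer x₀).competitiveness := by
  classical
  refine OnlineProblem.le_competitiveness (fun C A hA ⟨K, hK⟩ => ?_)
  suffices hkC : (k : ℝ) ≤ (C : ℝ) by
    have : (k : ℝ≥0) ≤ C := by exact_mod_cast hkC
    exact_mod_cast this
  by_contra hlt
  rw [not_le] at hlt
  obtain ⟨K₁, K₂, h, s, y, l, a, H⟩ := Adv.exists_start x₀ hA g hg
  obtain ⟨m, hm, hsep⟩ := exists_sep (Finset.univ.image g)
  have key : ∀ n : ℕ, ∃ (h : List M) (s : Fin k → M) (y l : M) (D : ℝ) (a : M → ℝ),
      Adv x₀ A (Finset.univ.image g) K₁ K₂ h s y l D a ∧ n * m ≤ D := by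
    intro n
    induction n with
    | zero => exact ⟨h, s, y, l, 0, a, H, by simp⟩
    | succ n ih =>
      obtain ⟨h, s, y, l, D, a, H, hD⟩ := ih
      obtain ⟨s', y', a', H'⟩ := H.next hA
      refine ⟨_, _, _, _, _, _, H', ?_⟩
      have := hsep l H.lT y H.yT H.ly
      push_cast
      linarith
  have hnn : ∀ s t, 0 ≤ (kServer x₀).cost s t := fun s t => moveCost_nonneg s t
  have bound : ∀ n : ℕ, (n * m) * (k - C) ≤ C * K₂ + k * (K + K₁) := by
    intro n
    obtain ⟨h, s, y, l, D, a, H, hD⟩ := key n
    have c1 : (k : ℝ) * (kServer x₀).opt h ≤ K₂ + D := by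
      refine le_trans ?_ H.tot
      have hcard : ((Finset.univ.image g).filter (· ≠ l)).card = k := by
        have : (Finset.univ.image g).filter (· ≠ l) = (Finset.univ.image g).erase l := by
          ext x
          simp [and_comm]
        rw [this, Finset.card_erase_of_mem H.lT, Finset.card_image_of_injective _ hg]
        simp
      have : ∑ x ∈ (Finset.univ.image g).filter (· ≠ l), (kServer x₀).opt h
          = k * (kServer x₀).opt h := by
        rw [Finset.sum_const, hcard, nsmul_eq_mul]
      rw [← this]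
      refine Finset.sum_le_sum (fun x hx => ?_)
      rw [Finset.mem_filter] at hx
      obtain ⟨z, _, hz⟩ := H.fam x hx.1 hx.2
      exact OnlineProblem.opt_le hnn hz
    have c2 := hK h
    have c3 := H.alg
    have c4 := moveCost_nonneg (A h) s
    have c5 := dist_nonneg (x := l) (y := y)
    have c6 : D ≤ C * (kServer x₀).opt h + K + K₁ := by linarith
    have c7 : (k : ℝ) * D ≤ C * (K₂ + D) + k * (K + K₁) := by
      have hk0 : (0 : ℝ) ≤ k := Nat.cast_nonneg k
      have hC0 : (0 : ℝ) ≤ C := C.coe_nonneg
      have e1 := mul_le_mul_of_nonneg_left c6 hk0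
      have e2 := mul_le_mul_of_nonneg_left c1 hC0
      nlinarith
    have c8 : 0 < (k : ℝ) - C := sub_pos.mpr hlt
    have c9 := mul_le_mul_of_nonneg_right hD c8.le
    nlinarith
  have hpos : 0 < m * (k - C) := mul_pos hm (sub_pos.mpr hlt)
  obtain ⟨n, hn⟩ := exists_nat_gt ((C * K₂ + k * (K + K₁)) / (m * (k - C)))
  rw [div_lt_iff₀ hpos] at hn
  have := bound n
  nlinarith

end Pool.Agent.helper59.DelayedServer
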