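import Mathlib
import Pool.Agent.helper59.DelayedBasic

open scoped ENNReal NNReal

namespace Pool.Agent.helper59.DelayedServer

universe u v

variable {M : Type u} [MetricSpace M] {N : Type v} [MetricSpace N] {k : ℕ}

/-- `n` alternating pairs of requests `s`, `s'` in front of the history `h`. -/
def hammer (s s' : N) : ℕ → List N → List N
  | 0, h => h
  | n + 1, h => s' :: s :: hammer s s' n h

theorem offline_hammer {y₀ : Fin k → N} {h : List N} {z z' : Fin k → N} {c : ℝ}
    (H : (kServer y₀).Offline h z c) {s s' : N} (hs : ∃ i, z' i = s) (hs' : ∃ i, z' i = s')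
    (n : ℕ) : (kServer y₀).Offline (s' :: s :: hammer s s' n h) z' (c + moveCost z z') := by
  have hself : ∀ z : Fin k → N, (kServer y₀).cost z z = 0 := fun z => moveCost_self z
  induction n with
  | zero =>
    have h1 := OnlineProblem.Offline.serve (P := kServer y₀) s z' H hs
    have h2 := OnlineProblem.Offline.serve (P := kServer y₀) s' z' h1 hs'
    rw [hself, add_zero] at h2
    exact h2
  | succ n ih =>
    have h1 := OnlineProblem.Offline.serve (P := kServer y₀) s z' ih hs
    have h2 := OnlineProblem.Offline.serve (P := kServer y₀) s' z' h1 hs'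
    rw [hself, add_zero, add_zero] at h2
    exact h2

theorem algCost_hammer_mono {y₀ : Fin k → N} (A : List N → Fin k → N) (s s' : N) (h : List N)
    (η : ℝ) (hη : ∀ n, η ≤ moveCost (A (s :: hammer s s' n h)) (A (s' :: s :: hammer s s' n h)))
    (n : ℕ) : (kServer y₀).algCost A h + n * η ≤ (kServer y₀).algCost A (hammer s s' n h) := by
  induction n with
  | zero => simp [hammer]
  | succ n ih =>
    have h1 : (kServer y₀).algCost A (hammer s s' (n + 1) h)
      = (kServer y₀).algCost A (hammer s s' n h)
        + moveCost (A (hammer s s' n h)) (A (s :: hammer s s' n h))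
        + moveCost (A (s :: hammer s s' n h)) (A (s' :: s :: hammer s s' n h)) := rfl
    have h2 := hη n
    have h3 := moveCost_nonneg (A (hammer s s' n h)) (A (s :: hammer s s' n h))
    rw [h1]
    push_cast
    linarith

theorem exists_hammer (hk : 2 ≤ k) {y₀ : Fin k → N} {A : List N → Fin k → N}
    (hA : (kServer y₀).IsAlgorithm A) {C : ℝ} (hC0 : 0 ≤ C)
    (hC : (kServer y₀).IsCompetitive A C) (s s' : N) (h : List N) {η : ℝ} (hη : 0 < η) :
    ∃ n, moveCost (A (s :: hammer s s' n h)) (A (s' :: s :: hammer s s' n h)) < η := by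
  by_contra hcon
  push Not at hcon
  obtain ⟨K, hK⟩ := hC
  let z : Fin k → N := fun i => if i = ⟨0, by omega⟩ then s else s'
  have hz : ∃ i, z i = s := ⟨⟨0, by omega⟩, by simp [z]⟩
  have hz' : ∃ i, z i = s' := ⟨⟨1, by omega⟩, by simp [z]⟩
  have hnn : ∀ s t, 0 ≤ (kServer y₀).cost s t := fun s t => moveCost_nonneg s t
  set B := (kServer y₀).algCost A h + moveCost (A h) z with hB
  have h1 : ∀ n : ℕ, ((n : ℝ) + 1) * η ≤ C * B + K := by
    intro n
    have e1 := algCost_hammer_mono (y₀ := y₀) A s s' h η hcon (n + 1)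
    have e2 := hK (hammer s s' (n + 1) h)
    have e3 : (kServer y₀).opt (hammer s s' (n + 1) h) ≤ B :=
      OnlineProblem.opt_le hnn (offline_hammer (hA.offline h) hz hz' n)
    have e4 := mul_le_mul_of_nonneg_left e3 hC0
    have e5 : 0 ≤ (kServer y₀).algCost A h := (hA.offline h).nonneg hnn
    push_cast at e1
    linarith
  obtain ⟨n, hn⟩ := exists_nat_gt ((C * B + K) / η)
  rw [div_lt_iff₀ hη] at hn
  have := h1 n
  nlinarith

theorem moveCost_le_algCost_hammer {y₀ : Fin k → N} (A : List N → Fin k → N) (s s' : N)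
    (h : List N) (n : ℕ) :
    moveCost (A h) (A (s' :: s :: hammer s s' n h)) + (kServer y₀).algCost A h
      ≤ (kServer y₀).algCost A (s' :: s :: hammer s s' n h) := by
  have hstep : ∀ n, moveCost (A (hammer s s' n h)) (A (s' :: s :: hammer s s' n h))
      + (kServer y₀).algCost A (hammer s s' n h)
      ≤ (kServer y₀).algCost A (s' :: s :: hammer s s' n h) := by
    intro n
    have h1 : (kServer y₀).algCost A (s' :: s :: hammer s s' n h)
      = (kServer y₀).algCost A (hammer s s' n h)
        + moveCost (A (hammer s s' n h)) (A (s :: hammer s s' n h))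
        + moveCost (A (s :: hammer s s' n h)) (A (s' :: s :: hammer s s' n h)) := rfl
    have := moveCost_triangle (A (hammer s s' n h)) (A (s :: hammer s s' n h))
      (A (s' :: s :: hammer s s' n h))
    linarith
  induction n with
  | zero => exact hstep 0
  | succ n ih =>
    have h1 := hstep (n + 1)
    have h2 : moveCost (A h) (A (hammer s s' (n + 1) h)) + (kServer y₀).algCost A h
      ≤ (kServer y₀).algCost A (hammer s s' (n + 1) h) := ih
    have h3 := moveCost_triangle (A h) (A (hammer s s' (n + 1) h))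
      (A (s' :: s :: hammer s s' (n + 1) h))
    linarith

/-- The matching cost between the places `ι (Y m)` and the tracked servers. -/
noncomputable def track (ι : M → N) (Y : Fin k → M) (X : Fin k → N)
    (σ : Equiv.Perm (Fin k)) : ℝ := ∑ m, dist (ι (Y m)) (X (σ m))

theorem track_nonneg (ι : M → N) (Y : Fin k → M) (X : Fin k → N) (σ : Equiv.Perm (Fin k)) :
    0 ≤ track ι Y X σ := Finset.sum_nonneg (fun _ _ => dist_nonneg)

theorem track_triangle (ι : M → N) (Y : Fin k → M) (X X' : Fin k → N)
    (σ : Equiv.Perm (Fin k)) : track ι Y X' σ ≤ track ι Y X σ + moveCost X X' := by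
  have : moveCost X X' = ∑ m, dist (X (σ m)) (X' (σ m)) := by
    unfold moveCost
    exact (Equiv.sum_comp σ (fun m => dist (X m) (X' m))).symm
  rw [this]
  unfold track
  rw [← Finset.sum_add_distrib]
  exact Finset.sum_le_sum (fun m _ => dist_triangle _ _ _)

theorem sum_two_change {F F' : Fin k → ℝ} {f g : Fin k} (hfg : g ≠ f)
    (h : ∀ m, m ≠ f → m ≠ g → F' m = F m) :
    ∑ m, F' m + F f + F g = ∑ m, F m + F' f + F' g := by
  have hg : g ∈ Finset.univ.erase f := Finset.mem_erase.mpr ⟨hfg, Finset.mem_univ _⟩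
  rw [← Finset.add_sum_erase _ F' (Finset.mem_univ f), ← Finset.add_sum_erase _ F' hg,
    ← Finset.add_sum_erase _ F (Finset.mem_univ f), ← Finset.add_sum_erase _ F hg]
  have : ∑ m ∈ (Finset.univ.erase f).erase g, F' m = ∑ m ∈ (Finset.univ.erase f).erase g, F m := by
    refine Finset.sum_congr rfl (fun m hm => ?_)
    rw [Finset.mem_erase, Finset.mem_erase] at hm
    exact h m hm.2.1 hm.1
  rw [this]
  ring

theorem track_update (ι : M → N) (Y : Fin k → M) (X : Fin k → N) (σ : Equiv.Perm (Fin k))
    (g : Fin k) (r : M) :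
    track ι (Function.update Y g r) X σ + dist (ι (Y g)) (X (σ g))
      = track ι Y X σ + dist (ι r) (X (σ g)) := by
  unfold track
  rw [← Finset.add_sum_erase _ _ (Finset.mem_univ g),
    ← Finset.add_sum_erase _ (fun m => dist (ι (Y m)) (X (σ m))) (Finset.mem_univ g),
    Function.update_self]
  have : ∑ m ∈ Finset.univ.erase g, dist (ι (Function.update Y g r m)) (X (σ m))
      = ∑ m ∈ Finset.univ.erase g, dist (ι (Y m)) (X (σ m)) := by
    refine Finset.sum_congr rfl (fun m hm => ?_)
    rw [Function.update_of_ne (Finset.ne_of_mem_erase hm)]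
  rw [this]
  ring

theorem track_core {ι : M → N} (hι : Isometry ι) {Y : Fin k → M} {X : Fin k → N}
    {σ : Equiv.Perm (Fin k)} {f i j : Fin k} (hij : i ≠ j) {s s' : N} {r : M} {e e' : ℝ}
    (h1 : X i = s') (h2 : dist (X j) s ≤ e') (h3 : dist s (ι (Y f)) ≤ e)
    (h4 : dist s' (ι r) ≤ e') :
    ∃ (τ : Equiv.Perm (Fin k)) (g : Fin k), g ≠ f ∧
      dist (Y g) r + track ι (Function.update Y g r) X τ
        ≤ track ι Y X σ + 2 * e + 4 * e' := by
  have he' : 0 ≤ e' := dist_nonneg.trans h4
  have he : 0 ≤ e := dist_nonneg.trans h3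
  -- moving the server tracking `i`
  have move : ∀ (τ : Equiv.Perm (Fin k)) (g : Fin k), τ g = i →
      dist (Y g) r + track ι (Function.update Y g r) X τ ≤ track ι Y X τ + 2 * e' := by
    intro τ g hg
    have a1 := track_update ι Y X τ g r
    rw [hg, h1] at a1
    have a2 := dist_triangle (ι (Y g)) s' (ι r)
    rw [hι.dist_eq] at a2
    have a3 : dist (ι r) s' ≤ e' := by rw [dist_comm]; exact h4
    linarith
  by_cases hf : σ f = i
  · refine ⟨σ.trans (Equiv.swap i j), σ.symm j, ?_, ?_⟩
    · rintro rfl
      rw [Equiv.apply_symm_apply] at hf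
      exact hij hf.symm
    · have b1 := move (σ.trans (Equiv.swap i j)) (σ.symm j) (by simp)
      have hne : σ.symm j ≠ f := by
        rintro rfl
        rw [Equiv.apply_symm_apply] at hf
        exact hij hf.symm
      have b2 := sum_two_change (F := fun m => dist (ι (Y m)) (X (σ m)))
        (F' := fun m => dist (ι (Y m)) (X ((σ.trans (Equiv.swap i j)) m)))
        (f := f) (g := σ.symm j) hne (by
          intro m hmf hmg
          have c1 : σ m ≠ i := fun e => hmf (σ.injective (e.trans hf.symm))
          have c2 : σ m ≠ j := fun e => hmg (by rw [← e, Equiv.symm_apply_apply])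
          simp only [Equiv.trans_apply]
          rw [Equiv.swap_apply_of_ne_of_ne c1 c2])
      simp only [Equiv.trans_apply, Equiv.apply_symm_apply, hf, Equiv.swap_apply_left,
        Equiv.swap_apply_right] at b2
      have b3 : track ι Y X (σ.trans (Equiv.swap i j))
          = ∑ m, dist (ι (Y m)) (X (Equiv.swap i j (σ m))) := rfl
      have b4 : track ι Y X σ = ∑ m, dist (ι (Y m)) (X (σ m)) := rfl
      have b5 : dist (ι (Y f)) (X j) ≤ e + e' := by
        have := dist_triangle (ι (Y f)) s (X j)
        rw [dist_comm (ι (Y f)) s, dist_comm s (X j)] at this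
        linarith
      have b6 := dist_triangle4 (ι (Y (σ.symm j))) (X j) (ι (Y f)) (X i)
      rw [dist_comm (X j) (ι (Y f))] at b6
      linarith
  · refine ⟨σ, σ.symm i, ?_, ?_⟩
    · rintro rfl
      exact hf (Equiv.apply_symm_apply _ _)
    · have b1 := move σ (σ.symm i) (Equiv.apply_symm_apply _ _)
      linarith

end Pool.Agent.helper59.DelayedServer
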