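import Mathlib
import Pool.Agent.helper59.DelayedHammer

open scoped ENNReal NNReal

namespace Pool.Agent.helper59.DelayedServer

universe u v

/-- Memory of the simulating algorithm: the requests `hN` passed on to the simulated
algorithm, the substitute `s` of the latest request, the own configuration `Y` with frozen
server `f`, the matching `σ` to the servers of the simulated algorithm, and the time. -/
structure Mem (M : Type u) (N : Type v) (k : ℕ) where
  hN : List N
  s : N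
  Y : Fin k → M
  f : Fin k
  σ : Equiv.Perm (Fin k)
  n : ℕ

variable {M : Type u} [MetricSpace M] {N : Type v} [MetricSpace N] {k : ℕ}

/-- the error allowed at time `n` -/
noncomputable def err (n : ℕ) : ℝ := (1 / 2) ^ n

theorem err_pos (n : ℕ) : 0 < err n := by unfold err; positivity

theorem err_succ (n : ℕ) : err (n + 1) = err n / 2 := by unfold err; rw [pow_succ]; ring

theorem err_le_one (n : ℕ) : err n ≤ 1 := by
  unfold err
  exact pow_le_one₀ (by norm_num) (by norm_num)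

/-- What one step of the simulation achieves. -/
structure StepRel (ι : M → N) (y₀ : Fin k → N) (A : List N → Fin k → N) (S : Mem M N k)
    (r : M) (S' : Mem M N k) : Prop where
  hf : S'.f ≠ S.f
  hr : S'.Y S'.f = r
  hold : S'.Y S.f = S.Y S.f
  hn : S'.n = S.n + 1
  hs : S'.s ≠ S.s
  hclose : dist S'.s (ι r) ≤ err (S.n + 1)
  hham : ∃ j, S'.hN = S'.s :: S.s :: hammer S.s S'.s j S.hN
  hcost : moveCost S.Y S'.Y + track ι S'.Y (A S'.hN) S'.σ + (kServer y₀).algCost A S.hN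
    ≤ track ι S.Y (A S.hN) S.σ + (kServer y₀).algCost A S'.hN + 4 * err S.n

theorem exists_step (hk : 2 ≤ k) {ι : M → N} (hι : Isometry ι)
    (hacc : ∀ x : M, ∀ ε > 0, ∃ p : N, p ≠ ι x ∧ dist p (ι x) < ε)
    {y₀ : Fin k → N} {A : List N → Fin k → N} (hA : (kServer y₀).IsAlgorithm A)
    {C : ℝ} (hC0 : 0 ≤ C) (hC : (kServer y₀).IsCompetitive A C) (S : Mem M N k)
    (hS : dist S.s (ι (S.Y S.f)) ≤ err S.n) (r : M) :
    ∃ S' : Mem M N k, StepRel ι y₀ A S r S' := by
  -- the substitute for `r`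
  obtain ⟨s', hs', hs'r⟩ : ∃ s' : N, s' ≠ S.s ∧ dist s' (ι r) ≤ err (S.n + 1) := by
    by_cases h : S.s = ι r
    · obtain ⟨p, hp, hpd⟩ := hacc r (err (S.n + 1)) (err_pos _)
      exact ⟨p, by rw [h]; exact hp, hpd.le⟩
    · exact ⟨ι r, Ne.symm h, by rw [dist_self]; exact (err_pos _).le⟩
  have hd : 0 < dist S.s s' := dist_pos.mpr (Ne.symm hs')
  obtain ⟨n, hn⟩ := exists_hammer hk hA hC0 hC S.s s' S.hN
    (lt_min (err_pos (S.n + 1)) hd)
  rw [lt_min_iff] at hn
  obtain ⟨i, hi⟩ : ∃ i, A (s' :: S.s :: hammer S.s s' n S.hN) i = s' := hA.2 _ _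
  obtain ⟨j, hj⟩ : ∃ j, A (S.s :: hammer S.s s' n S.hN) j = S.s := hA.2 _ _
  have hjd : dist (A (s' :: S.s :: hammer S.s s' n S.hN) j) S.s
      ≤ moveCost (A (S.s :: hammer S.s s' n S.hN)) (A (s' :: S.s :: hammer S.s s' n S.hN)) := by
    have := dist_le_moveCost (A (S.s :: hammer S.s s' n S.hN))
      (A (s' :: S.s :: hammer S.s s' n S.hN)) j
    rw [hj, dist_comm] at this
    exact this
  have hij : i ≠ j := by
    rintro rfl
    rw [hi, dist_comm] at hjd
    linarith [hn.2]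
  obtain ⟨τ, g, hgf, hcore⟩ := track_core (X := A (s' :: S.s :: hammer S.s s' n S.hN))
    (σ := S.σ) hι hij hi (hjd.trans hn.1.le) hS hs'r
  refine ⟨⟨s' :: S.s :: hammer S.s s' n S.hN, s', Function.update S.Y g r, g, τ, S.n + 1⟩,
    ⟨hgf, Function.update_self _ _ _, Function.update_of_ne hgf.symm _ _, rfl, hs', hs'r,
      ⟨n, rfl⟩, ?_⟩⟩
  have h1 := track_triangle ι S.Y (A S.hN) (A (s' :: S.s :: hammer S.s s' n S.hN)) S.σ
  have h2 := moveCost_le_algCost_hammer (y₀ := y₀) A S.s s' S.hN n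
  have h3 := err_succ S.n
  show moveCost S.Y (Function.update S.Y g r)
    + track ι (Function.update S.Y g r) (A (s' :: S.s :: hammer S.s s' n S.hN)) τ
    + (kServer y₀).algCost A S.hN ≤ track ι S.Y (A S.hN) S.σ
      + (kServer y₀).algCost A (s' :: S.s :: hammer S.s s' n S.hN) + 4 * err S.n
  rw [moveCost_update]
  linarith

/-- The memory after a history, with its invariant. -/
noncomputable def run (hk : 2 ≤ k) {ι : M → N} (hι : Isometry ι)
    (hacc : ∀ x : M, ∀ ε > 0, ∃ p : N, p ≠ ι x ∧ dist p (ι x) < ε)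
    {y₀ : Fin k → N} {A : List N → Fin k → N} (hA : (kServer y₀).IsAlgorithm A)
    {C : ℝ} (hC0 : 0 ≤ C) (hC : (kServer y₀).IsCompetitive A C)
    (x₀ : Fin k → M) (f₀ : Fin k) :
    List M → {S : Mem M N k // dist S.s (ι (S.Y S.f)) ≤ err S.n}
  | [] => ⟨⟨[], ι (x₀ f₀), x₀, f₀, Equiv.refl _, 0⟩, by
      rw [dist_self]; exact (err_pos _).le⟩
  | r :: h =>
    let S := run hk hι hacc hA hC0 hC x₀ f₀ h
    let e := exists_step hk hι hacc hA hC0 hC S.1 S.2 r
    ⟨e.choose, by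
      have := e.choose_spec
      rw [this.hr, this.hn]
      exact this.hclose⟩

section

variable (hk : 2 ≤ k) {ι : M → N} (hι : Isometry ι)
  (hacc : ∀ x : M, ∀ ε > 0, ∃ p : N, p ≠ ι x ∧ dist p (ι x) < ε)
  {A : List N → Fin k → N} (x₀ : Fin k → M) (f₀ : Fin k)
  (hA : (kServer (ι ∘ x₀)).IsAlgorithm A)
  {C : ℝ} (hC0 : 0 ≤ C) (hC : (kServer (ι ∘ x₀)).IsCompetitive A C)

include hk hι hacc hA hC0 hC

theorem run_step (h : List M) (r : M) :
    StepRel ι (ι ∘ x₀) A (run hk hι hacc hA hC0 hC x₀ f₀ h).1 r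
      (run hk hι hacc hA hC0 hC x₀ f₀ (r :: h)).1 :=
  (exists_step hk hι hacc hA hC0 hC (run hk hι hacc hA hC0 hC x₀ f₀ h).1
    (run hk hι hacc hA hC0 hC x₀ f₀ h).2 r).choose_spec

/-- The simulating algorithm. -/
noncomputable def simAlg (h : List M) : (Fin k → M) × Fin k :=
  ((run hk hι hacc hA hC0 hC x₀ f₀ h).1.Y, (run hk hι hacc hA hC0 hC x₀ f₀ h).1.f)

theorem isAlgorithm_simAlg :
    (delayedB x₀ f₀).IsAlgorithm (simAlg hk hι hacc x₀ f₀ hA hC0 hC) := by
  refine ⟨rfl, fun h r => ?_⟩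
  have H := run_step hk hι hacc x₀ f₀ hA hC0 hC h r
  exact ⟨H.hf, H.hr, H.hold⟩

theorem simAlg_cost (h : List M) :
    (delayedB x₀ f₀).algCost (simAlg hk hι hacc x₀ f₀ hA hC0 hC) h
      + track ι (run hk hι hacc hA hC0 hC x₀ f₀ h).1.Y
          (A (run hk hι hacc hA hC0 hC x₀ f₀ h).1.hN) (run hk hι hacc hA hC0 hC x₀ f₀ h).1.σ
      + 8 * err (run hk hι hacc hA hC0 hC x₀ f₀ h).1.n
      ≤ (kServer (ι ∘ x₀)).algCost A (run hk hι hacc hA hC0 hC x₀ f₀ h).1.hN + 8 := by
  induction h with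
  | nil =>
    have h1 : track ι x₀ (A []) (Equiv.refl _) = 0 := by
      rw [hA.1]
      exact moveCost_self (ι ∘ x₀)
    show (0 : ℝ) + track ι x₀ (A []) (Equiv.refl _) + 8 * err 0 ≤ 0 + 8
    rw [h1]
    unfold err
    norm_num
  | cons r h ih =>
    have H := run_step hk hι hacc x₀ f₀ hA hC0 hC h r
    have h1 := H.hcost
    have h2 := err_succ (run hk hι hacc hA hC0 hC x₀ f₀ h).1.n
    have h3 : (delayedB x₀ f₀).algCost (simAlg hk hι hacc x₀ f₀ hA hC0 hC) (r :: h)
      = (delayedB x₀ f₀).algCost (simAlg hk hι hacc x₀ f₀ hA hC0 hC) h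
        + moveCost (run hk hι hacc hA hC0 hC x₀ f₀ h).1.Y
          (run hk hι hacc hA hC0 hC x₀ f₀ (r :: h)).1.Y := rfl
    rw [h3, H.hn, h2]
    linarith

theorem offline_sim {h : List M} {s : (Fin k → M) × Fin k} {c : ℝ}
    (H : (delayedB x₀ f₀).Offline h s c) :
    dist (run hk hι hacc hA hC0 hC x₀ f₀ h).1.s (ι (s.1 s.2))
      ≤ err (run hk hι hacc hA hC0 hC x₀ f₀ h).1.n ∧
    ∃ (z : Fin k → N) (c' : ℝ),
      (kServer (ι ∘ x₀)).Offline (run hk hι hacc hA hC0 hC x₀ f₀ h).1.hN z c' ∧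
      c' + moveCost z (ι ∘ s.1) + 6 * err (run hk hι hacc hA hC0 hC x₀ f₀ h).1.n ≤ c + 6 := by
  refine OnlineProblem.Offline.induct (P := delayedB x₀ f₀)
    (motive := fun h (s : (Fin k → M) × Fin k) c =>
      dist (run hk hι hacc hA hC0 hC x₀ f₀ h).1.s (ι (s.1 s.2))
        ≤ err (run hk hι hacc hA hC0 hC x₀ f₀ h).1.n ∧
      ∃ (z : Fin k → N) (c' : ℝ),
        (kServer (ι ∘ x₀)).Offline (run hk hι hacc hA hC0 hC x₀ f₀ h).1.hN z c' ∧
        c' + moveCost z (ι ∘ s.1) + 6 * err (run hk hι hacc hA hC0 hC x₀ f₀ h).1.n ≤ c + 6)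
    ?_ ?_ H
  · refine ⟨?_, ι ∘ x₀, 0, OnlineProblem.Offline.start, ?_⟩
    · show dist (ι (x₀ f₀)) (ι (x₀ f₀)) ≤ err 0
      rw [dist_self]
      exact (err_pos 0).le
    · show (0 : ℝ) + moveCost (ι ∘ x₀) (ι ∘ x₀) + 6 * err 0 ≤ 0 + 6
      rw [moveCost_self]
      unfold err
      norm_num
  · intro h (s : (Fin k → M) × Fin k) c r (t : (Fin k → M) × Fin k) _ hst ih
    obtain ⟨hts, htr, hold⟩ := hst
    obtain ⟨ih1, z, c', hz, hc'⟩ := ih
    have HS := run_step hk hι hacc x₀ f₀ hA hC0 hC h r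
    set S := (run hk hι hacc hA hC0 hC x₀ f₀ h).1 with hS
    set S' := (run hk hι hacc hA hC0 hC x₀ f₀ (r :: h)).1 with hS'
    refine ⟨?_, ?_⟩
    · show dist S'.s (ι (t.1 t.2)) ≤ err S'.n
      rw [htr, HS.hn]
      exact HS.hclose
    · let z' : Fin k → N := fun i => if i = t.2 then S'.s else if i = s.2 then S.s else ι (t.1 i)
      have hz't : z' t.2 = S'.s := if_pos rfl
      have hz's : z' s.2 = S.s := by
        show (if s.2 = t.2 then S'.s else if s.2 = s.2 then S.s else ι (t.1 s.2)) = S.s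
        rw [if_neg (Ne.symm hts), if_pos rfl]
      obtain ⟨j, hj⟩ := HS.hham
      refine ⟨z', c' + moveCost z z', ?_, ?_⟩
      · rw [hj]
        exact offline_hammer hz ⟨s.2, hz's⟩ ⟨t.2, hz't⟩ j
      · have e1 : moveCost z' (ι ∘ t.1) = dist S'.s (ι r) + dist S.s (ι (s.1 s.2)) := by
          have a1 : moveCost z' (ι ∘ t.1) + 0 + 0
              = 0 + dist S'.s (ι r) + dist S.s (ι (s.1 s.2)) := by
            have := sum_two_change (F := fun _ => (0 : ℝ))
              (F' := fun i => dist (z' i) ((ι ∘ t.1) i)) (f := t.2) (g := s.2)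
              (Ne.symm hts) (by
                intro m hm1 hm2
                simp only [z', Function.comp]
                rw [if_neg hm1, if_neg hm2, dist_self])
            simp only [Function.comp, hz't, hz's, htr, hold, Finset.sum_const_zero] at this
            exact this
          linarith
        have e2 := moveCost_triangle z (ι ∘ s.1) z'
        have e3 := moveCost_triangle (ι ∘ s.1) (ι ∘ t.1) z'
        rw [moveCost_comm (ι ∘ t.1) z'] at e3
        have e4 : moveCost (ι ∘ s.1) (ι ∘ t.1) = moveCost s.1 t.1 := by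
          unfold moveCost
          simp only [Function.comp, hι.dist_eq]
        have e5 := HS.hclose
        have e6 := err_succ S.n
        have e7 : (delayedB x₀ f₀).cost s t = moveCost s.1 t.1 := rfl
        rw [HS.hn, e6, e7]
        rw [e6] at e5
        linarith

theorem isCompetitive_simAlg :
    (delayedB x₀ f₀).IsCompetitive (simAlg hk hι hacc x₀ f₀ hA hC0 hC) C := by
  obtain ⟨K, hK⟩ := id hC
  refine ⟨C * 6 + K + 8, fun h => ?_⟩
  have h1 := simAlg_cost hk hι hacc x₀ f₀ hA hC0 hC h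
  have h2 := track_nonneg ι (run hk hι hacc hA hC0 hC x₀ f₀ h).1.Y
    (A (run hk hι hacc hA hC0 hC x₀ f₀ h).1.hN) (run hk hι hacc hA hC0 hC x₀ f₀ h).1.σ
  have h3 := err_pos (run hk hι hacc hA hC0 hC x₀ f₀ h).1.n
  have h4 := hK (run hk hι hacc hA hC0 hC x₀ f₀ h).1.hN
  have h5 : (kServer (ι ∘ x₀)).opt (run hk hι hacc hA hC0 hC x₀ f₀ h).1.hN - 6
      ≤ (delayedB x₀ f₀).opt h := by
    refine OnlineProblem.le_opt (isAlgorithm_simAlg hk hι hacc x₀ f₀ hA hC0 hC) ?_
    intro s c H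
    obtain ⟨_, z, c', hz, hc'⟩ := offline_sim hk hι hacc x₀ f₀ hA hC0 hC H
    have a1 := OnlineProblem.opt_le (fun s t => moveCost_nonneg s t) hz
    have a2 := moveCost_nonneg z (ι ∘ s.1)
    linarith
  have h6 := mul_le_mul_of_nonneg_left h5 hC0
  linarith

end

/-- If every point of the image of an isometric embedding `ι : M → N` is an accumulation
point of `N`, then version (b) of the delayed problem in `M` is at most as hard as the
ordinary `k`-server problem in `N`. -/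
theorem delayedB_le_kServer (hk : 2 ≤ k) {ι : M → N} (hι : Isometry ι)
    (hacc : ∀ x : M, ∀ ε > 0, ∃ p : N, p ≠ ι x ∧ dist p (ι x) < ε)
    (x₀ : Fin k → M) (f₀ : Fin k) :
    (delayedB x₀ f₀).competitiveness ≤ (kServer (ι ∘ x₀)).competitiveness :=
  OnlineProblem.le_competitiveness (fun C _ hA hC =>
    OnlineProblem.competitiveness_le
      (isAlgorithm_simAlg hk hι hacc x₀ f₀ hA C.coe_nonneg hC) C
      (isCompetitive_simAlg hk hι hacc x₀ f₀ hA C.coe_nonneg hC))

end Pool.Agent.helper59.DelayedServer
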