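import Mathlib
import Pool.Agent.helper59.DelayedBasic

open scoped ENNReal NNReal

namespace Pool.Agent.helper59.DelayedServer

universe u

variable {M : Type u} [MetricSpace M]

/-- Memory of the algorithm for three servers: positions, the free server `a` at the request
before last, the frozen server `f`, the other free server `b`, the work function `w`
and two auxiliary quantities. -/
structure WS (M : Type u) where
  cfg : Fin 3 → M
  a : Fin 3
  f : Fin 3
  b : Fin 3
  w : M → ℝ
  al : M → ℝ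
  tau : ℝ

namespace WS

/-- new work function -/
noncomputable def w' (S : WS M) (r : M) (y : M) : ℝ :=
  min (S.w y + dist (S.cfg S.a) r) (S.w r + dist (S.cfg S.a) y)

noncomputable def al' (S : WS M) (r : M) (c : M) : ℝ :=
  min (S.al c + dist (S.cfg S.a) r) (S.w r - dist (S.cfg S.a) c)

noncomputable def tau' (S : WS M) (r : M) : ℝ :=
  min (2 * dist (S.cfg S.a) r + S.tau)
    (min (S.w r + dist (S.cfg S.a) r + S.al (S.cfg S.a)) (2 * S.w r))

open Classical in
/-- one step of the algorithm -/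
noncomputable def next (S : WS M) (r : M) : WS M :=
  if S.w' r (S.cfg S.b) + dist (S.cfg S.a) r ≤ S.w' r (S.cfg S.a) + dist (S.cfg S.b) r then
    { cfg := Function.update S.cfg S.a r, a := S.f, f := S.a, b := S.b,
      w := S.w' r, al := S.al' r, tau := S.tau' r }
  else
    { cfg := Function.update S.cfg S.b r, a := S.f, f := S.b, b := S.a,
      w := S.w' r, al := S.al' r, tau := S.tau' r }

/-- invariants -/
structure Good (S : WS M) : Prop where
  hab : S.a ≠ S.b
  haf : S.a ≠ S.f
  hbf : S.b ≠ S.f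
  wlip : ∀ x y, S.w x ≤ S.w y + dist x y
  alip : ∀ x y, S.al x ≤ S.al y + dist x y
  alw : ∀ c y, S.al c ≤ S.w y - dist y c
  tauw : ∀ y, S.tau ≤ S.w y + S.al y

/-- the potential -/
noncomputable def pot (S : WS M) : ℝ :=
  S.al (S.cfg S.a) + S.al (S.cfg S.f) + S.tau - dist (S.cfg S.a) (S.cfg S.f)
    - S.w (S.cfg S.b)

theorem next_w (S : WS M) (r : M) : (S.next r).w = S.w' r := by
  unfold next; split_ifs <;> rfl

theorem next_al (S : WS M) (r : M) : (S.next r).al = S.al' r := by
  unfold next; split_ifs <;> rfl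

theorem next_tau (S : WS M) (r : M) : (S.next r).tau = S.tau' r := by
  unfold next; split_ifs <;> rfl

theorem next_a (S : WS M) (r : M) : (S.next r).a = S.f := by
  unfold next; split_ifs <;> rfl

theorem Good.cfg_a {S : WS M} (h : S.Good) (r : M) :
    (S.next r).cfg (S.next r).a = S.cfg S.f := by
  unfold next
  split_ifs
  · exact Function.update_of_ne h.haf.symm _ _
  · exact Function.update_of_ne h.hbf.symm _ _

theorem cfg_f {S : WS M} (r : M) : (S.next r).cfg (S.next r).f = r := by
  unfold next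
  split_ifs <;> exact Function.update_self _ _ _

theorem Good.f_ne {S : WS M} (h : S.Good) (r : M) : (S.next r).f ≠ S.f := by
  unfold next
  split_ifs
  · exact h.haf
  · exact h.hbf

theorem Good.cfg_old {S : WS M} (h : S.Good) (r : M) : (S.next r).cfg S.f = S.cfg S.f := by
  unfold next
  split_ifs
  · exact Function.update_of_ne h.haf.symm _ _
  · exact Function.update_of_ne h.hbf.symm _ _

theorem w'_lip {S : WS M} (h : S.Good) (r x y : M) : S.w' r x ≤ S.w' r y + dist x y := by
  unfold w'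
  have h1 := h.wlip x y
  have h2 : dist (S.cfg S.a) x ≤ dist (S.cfg S.a) y + dist y x := dist_triangle _ _ _
  rw [dist_comm y x] at h2
  rcases min_choice (S.w y + dist (S.cfg S.a) r) (S.w r + dist (S.cfg S.a) y) with e | e
  · rw [e]
    have := min_le_left (S.w x + dist (S.cfg S.a) r) (S.w r + dist (S.cfg S.a) x)
    linarith
  · rw [e]
    have := min_le_right (S.w x + dist (S.cfg S.a) r) (S.w r + dist (S.cfg S.a) x)
    linarith

theorem al'_lip {S : WS M} (h : S.Good) (r x y : M) : S.al' r x ≤ S.al' r y + dist x y := by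
  unfold al'
  have h1 := h.alip x y
  have h2 : dist (S.cfg S.a) y ≤ dist (S.cfg S.a) x + dist x y := dist_triangle _ _ _
  rcases min_choice (S.al y + dist (S.cfg S.a) r) (S.w r - dist (S.cfg S.a) y) with e | e
  · rw [e]
    have := min_le_left (S.al x + dist (S.cfg S.a) r) (S.w r - dist (S.cfg S.a) x)
    linarith
  · rw [e]
    have := min_le_right (S.al x + dist (S.cfg S.a) r) (S.w r - dist (S.cfg S.a) x)
    linarith

theorem al'_le {S : WS M} (h : S.Good) (r c y : M) : S.al' r c ≤ S.w' r y - dist y c := by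
  unfold al' w'
  have h1 := h.alw c y
  have h2 : dist y c ≤ dist y (S.cfg S.a) + dist (S.cfg S.a) c := dist_triangle _ _ _
  rw [dist_comm y (S.cfg S.a)] at h2
  rcases min_choice (S.w y + dist (S.cfg S.a) r) (S.w r + dist (S.cfg S.a) y) with e | e
  · rw [e]
    have := min_le_left (S.al c + dist (S.cfg S.a) r) (S.w r - dist (S.cfg S.a) c)
    linarith
  · rw [e]
    have := min_le_right (S.al c + dist (S.cfg S.a) r) (S.w r - dist (S.cfg S.a) c)
    linarith

theorem tau'_le {S : WS M} (h : S.Good) (r y : M) : S.tau' r ≤ S.w' r y + S.al' r y := by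
  have t1 : S.tau' r ≤ 2 * dist (S.cfg S.a) r + S.tau := min_le_left _ _
  have t2 : S.tau' r ≤ S.w r + dist (S.cfg S.a) r + S.al (S.cfg S.a) :=
    (min_le_right _ _).trans (min_le_left _ _)
  have t3 : S.tau' r ≤ 2 * S.w r := (min_le_right _ _).trans (min_le_right _ _)
  have h1 := h.tauw y
  have h2 := h.alw (S.cfg S.a) y
  have h3 := h.alip (S.cfg S.a) y
  rw [dist_comm y] at h2
  unfold w' al'
  rcases min_choice (S.w y + dist (S.cfg S.a) r) (S.w r + dist (S.cfg S.a) y) with e | e <;>
  rcases min_choice (S.al y + dist (S.cfg S.a) r) (S.w r - dist (S.cfg S.a) y) with e' | e' <;>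
  rw [e, e'] <;> linarith

theorem Good.next {S : WS M} (h : S.Good) (r : M) : (S.next r).Good := by
  refine ⟨?_, ?_, ?_, ?_, ?_, ?_, ?_⟩
  · unfold WS.next; split_ifs
    · exact h.hbf.symm
    · exact h.haf.symm
  · unfold WS.next; split_ifs
    · exact h.haf.symm
    · exact h.hbf.symm
  · unfold WS.next; split_ifs
    · exact h.hab.symm
    · exact h.hab
  · rw [next_w]; exact fun x y => w'_lip h r x y
  · rw [next_al]; exact fun x y => al'_lip h r x y
  · rw [next_al, next_w]; exact fun c y => al'_le h r c y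
  · rw [next_al, next_w, next_tau]; exact fun y => tau'_le h r y

/-- the cost of a step plus the new work function value at the idle free server -/
theorem cost_step {S : WS M} (h : S.Good) (r : M) :
    moveCost S.cfg (S.next r).cfg + (S.next r).w ((S.next r).cfg (S.next r).b)
      = min (S.w' r (S.cfg S.b) + dist (S.cfg S.a) r)
          (S.w' r (S.cfg S.a) + dist (S.cfg S.b) r) := by
  rw [next_w]
  unfold next
  split_ifs with c
  · rw [min_eq_left c]
    dsimp only
    rw [moveCost_update, Function.update_of_ne h.hab.symm]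
    ring
  · rw [min_eq_right (not_le.mp c).le]
    dsimp only
    rw [moveCost_update, Function.update_of_ne h.hab]
    ring

theorem pot_step {S : WS M} (h : S.Good) (r : M) :
    moveCost S.cfg (S.next r).cfg + S.pot ≤ (S.next r).pot := by
  have hc := cost_step h r
  unfold pot
  rw [h.cfg_a, cfg_f, next_al, next_tau]
  -- abbreviations
  set u := S.cfg S.a with hu
  set v := S.cfg S.f with hv
  set q := S.cfg S.b with hq
  have e1 : S.w' r q ≤ S.w q + dist u r := min_le_left _ _
  have e2 : S.w' r u ≤ S.w r + dist u u := min_le_right _ _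
  rw [dist_self] at e2
  -- bound for the left side
  have n1 : moveCost S.cfg (S.next r).cfg + (S.next r).w ((S.next r).cfg (S.next r).b)
      ≤ S.w q + 2 * dist u r := by
    rw [hc]; exact (min_le_left _ _).trans (by linarith)
  have n2 : moveCost S.cfg (S.next r).cfg + (S.next r).w ((S.next r).cfg (S.next r).b)
      ≤ S.w r + dist q r := by
    rw [hc]; exact (min_le_right _ _).trans (by linarith)
  -- triangle inequalities
  have d1 : dist v r ≤ dist u v + dist u r := by
    have := dist_triangle v u r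
    rw [dist_comm v u] at this
    exact this
  -- facts on the auxiliary functions
  have f1 := h.tauw r
  have f2 := h.alip u r
  have f3 := h.alw u r
  rw [dist_comm r u] at f3
  have f4 := h.alw v r
  rw [dist_comm r v] at f4
  have f5 := h.alw r q
  -- the new values
  have g1 : S.al' r v = min (S.al v + dist u r) (S.w r - dist u v) := rfl
  have g2 : S.al' r r = min (S.al r + dist u r) (S.w r - dist u r) := rfl
  have g3 : S.tau' r = min (2 * dist u r + S.tau)
    (min (S.w r + dist u r + S.al u) (2 * S.w r)) := rfl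
  rcases min_choice (S.al v + dist u r) (S.w r - dist u v) with a1 | a1 <;>
  rcases min_choice (S.al r + dist u r) (S.w r - dist u r) with a2 | a2 <;>
  rcases min_choice (S.w r + dist u r + S.al u) (2 * S.w r) with a3 | a3 <;>
  rcases min_choice (2 * dist u r + S.tau)
    (min (S.w r + dist u r + S.al u) (2 * S.w r)) with a4 | a4 <;>
  rw [g1, g2, g3, a1, a2, a4] <;> (try rw [a3]) <;> linarith

/-- the initial memory -/
noncomputable def start (x₀ : Fin 3 → M) (f₀ : Fin 3) : WS M where
  cfg := x₀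
  a := f₀ + 1
  f := f₀
  b := f₀ + 2
  w := fun y => dist (x₀ (f₀ + 2)) y
  al := fun c => - dist (x₀ (f₀ + 2)) c
  tau := 0

theorem good_start (x₀ : Fin 3 → M) (f₀ : Fin 3) : (start x₀ f₀).Good := by
  refine ⟨?_, ?_, ?_, ?_, ?_, ?_, ?_⟩
  · show f₀ + 1 ≠ f₀ + 2
    revert f₀; decide
  · show f₀ + 1 ≠ f₀
    revert f₀; decide
  · show f₀ + 2 ≠ f₀
    revert f₀; decide
  · intro x y
    show dist (x₀ (f₀ + 2)) x ≤ dist (x₀ (f₀ + 2)) y + dist x y
    rw [dist_comm x y]
    exact dist_triangle _ _ _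
  · intro x y
    show - dist (x₀ (f₀ + 2)) x ≤ - dist (x₀ (f₀ + 2)) y + dist x y
    have := dist_triangle (x₀ (f₀ + 2)) x y
    linarith
  · intro c y
    show - dist (x₀ (f₀ + 2)) c ≤ dist (x₀ (f₀ + 2)) y - dist y c
    have := dist_triangle y (x₀ (f₀ + 2)) c
    rw [dist_comm y (x₀ (f₀ + 2))] at this
    linarith
  · intro y
    show (0 : ℝ) ≤ dist (x₀ (f₀ + 2)) y + - dist (x₀ (f₀ + 2)) y
    linarith

/-- the memory after a history -/
noncomputable def run (x₀ : Fin 3 → M) (f₀ : Fin 3) : List M → WS M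
  | [] => start x₀ f₀
  | r :: h => (run x₀ f₀ h).next r

theorem good_run (x₀ : Fin 3 → M) (f₀ : Fin 3) (h : List M) : (run x₀ f₀ h).Good := by
  induction h with
  | nil => exact good_start x₀ f₀
  | cons r h ih => exact ih.next r

/-- the online algorithm -/
noncomputable def alg (x₀ : Fin 3 → M) (f₀ : Fin 3) (h : List M) : (Fin 3 → M) × Fin 3 :=
  ((run x₀ f₀ h).cfg, (run x₀ f₀ h).f)

theorem isAlgorithm_alg (x₀ : Fin 3 → M) (f₀ : Fin 3) :
    (delayedB x₀ f₀).IsAlgorithm (alg x₀ f₀) := by
  refine ⟨rfl, fun h r => ⟨?_, ?_, ?_⟩⟩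
  · exact (good_run x₀ f₀ h).f_ne r
  · exact cfg_f r
  · exact (good_run x₀ f₀ h).cfg_old r

theorem algCost_add_pot (x₀ : Fin 3 → M) (f₀ : Fin 3) (h : List M) :
    (delayedB x₀ f₀).algCost (alg x₀ f₀) h + (start x₀ f₀).pot ≤ (run x₀ f₀ h).pot := by
  induction h with
  | nil =>
    show (0 : ℝ) + _ ≤ _
    rw [zero_add]
    exact le_rfl
  | cons r h ih =>
    have := pot_step (good_run x₀ f₀ h) r
    show (delayedB x₀ f₀).algCost (alg x₀ f₀) h
      + moveCost (run x₀ f₀ h).cfg ((run x₀ f₀ h).next r).cfg + _ ≤ _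
    show _ ≤ ((run x₀ f₀ h).next r).pot
    linarith

theorem fin3_cases {a b f x : Fin 3} (hab : a ≠ b) (haf : a ≠ f) (hbf : b ≠ f) (hx : x ≠ f) :
    x = a ∨ x = b := by
  revert a b f x; decide

theorem moveCost_three {a b f : Fin 3} (hab : a ≠ b) (haf : a ≠ f) (hbf : b ≠ f)
    (x y : Fin 3 → M) :
    moveCost x y = dist (x a) (y a) + dist (x b) (y b) + dist (x f) (y f) := by
  have h : (Finset.univ : Finset (Fin 3)) = {a, b, f} := by
    revert a b f; decide
  unfold moveCost
  rw [h, Finset.sum_insert, Finset.sum_insert, Finset.sum_singleton]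
  · ring
  · simpa using hbf
  · simp [hab, haf]

theorem fin3_ne (f : Fin 3) : f + 1 ≠ f + 2 ∧ f + 1 ≠ f ∧ f + 2 ≠ f := by
  revert f; decide

/-- Every schedule costs at least the work function value at the place of one of its free
servers. -/
theorem offline_ge (x₀ : Fin 3 → M) (f₀ : Fin 3) {h : List M} {s : (Fin 3 → M) × Fin 3}
    {c : ℝ} (H : (delayedB x₀ f₀).Offline h s c) :
    s.1 s.2 = (run x₀ f₀ h).cfg (run x₀ f₀ h).f ∧
    ∃ a b : Fin 3, a ≠ b ∧ a ≠ s.2 ∧ b ≠ s.2 ∧
      (run x₀ f₀ h).w (s.1 b) + dist ((run x₀ f₀ h).cfg (run x₀ f₀ h).a) (s.1 a) ≤ c := by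
  refine OnlineProblem.Offline.induct (P := delayedB x₀ f₀)
    (motive := fun h (s : (Fin 3 → M) × Fin 3) c =>
      s.1 s.2 = (run x₀ f₀ h).cfg (run x₀ f₀ h).f ∧
      ∃ a b : Fin 3, a ≠ b ∧ a ≠ s.2 ∧ b ≠ s.2 ∧
        (run x₀ f₀ h).w (s.1 b) + dist ((run x₀ f₀ h).cfg (run x₀ f₀ h).a) (s.1 a) ≤ c)
    ?_ ?_ H
  · refine ⟨rfl, f₀ + 1, f₀ + 2, (fin3_ne f₀).1, (fin3_ne f₀).2.1, (fin3_ne f₀).2.2, ?_⟩
    · show dist (x₀ (f₀ + 2)) (x₀ (f₀ + 2)) + dist (x₀ (f₀ + 1)) (x₀ (f₀ + 1)) ≤ 0
      simp
  · intro h (s : (Fin 3 → M) × Fin 3) c r (t : (Fin 3 → M) × Fin 3) hs hstep ih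
    obtain ⟨h1, a, b, hab, haf, hbf, h2⟩ := ih
    obtain ⟨ht, htr, hts⟩ := hstep
    have hG := good_run x₀ f₀ h
    have hcost : (delayedB x₀ f₀).cost s t
        = dist (s.1 a) (t.1 a) + dist (s.1 b) (t.1 b) + dist (s.1 s.2) (t.1 s.2) :=
      moveCost_three hab haf hbf _ _
    rw [hts, dist_self, add_zero] at hcost
    have hrun : run x₀ f₀ (r :: h) = (run x₀ f₀ h).next r := rfl
    rw [hrun, hcost, hG.cfg_a, cfg_f, next_w]
    refine ⟨htr, ?_⟩
    rw [← h1]
    rcases fin3_cases hab haf hbf ht with e | e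
    · -- the server `a` serves `r`
      refine ⟨s.2, b, hbf.symm, ht.symm, ?_, ?_⟩
      · rw [e]; exact hab.symm
      · rw [hts, dist_self, add_zero]
        have e1 : (run x₀ f₀ h).w' r (t.1 b) ≤
            (run x₀ f₀ h).w (t.1 b) + dist ((run x₀ f₀ h).cfg (run x₀ f₀ h).a) r :=
          min_le_left _ _
        have e2 := hG.wlip (t.1 b) (s.1 b)
        rw [dist_comm (t.1 b)] at e2
        have hr : t.1 a = r := by rw [← e]; exact htr
        have e3 : dist ((run x₀ f₀ h).cfg (run x₀ f₀ h).a) r ≤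
            dist ((run x₀ f₀ h).cfg (run x₀ f₀ h).a) (s.1 a) + dist (s.1 a) (t.1 a) := by
          rw [hr]; exact dist_triangle _ _ _
        linarith
    · -- the server `b` serves `r`
      refine ⟨s.2, a, haf.symm, ht.symm, ?_, ?_⟩
      · rw [e]; exact hab
      · rw [hts, dist_self, add_zero]
        have e1 : (run x₀ f₀ h).w' r (t.1 a) ≤
            (run x₀ f₀ h).w r + dist ((run x₀ f₀ h).cfg (run x₀ f₀ h).a) (t.1 a) :=
          min_le_right _ _
        have hr : t.1 b = r := by rw [← e]; exact htr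
        have e2 : (run x₀ f₀ h).w r ≤ (run x₀ f₀ h).w (s.1 b) + dist (s.1 b) (t.1 b) := by
          have := hG.wlip r (s.1 b)
          rw [hr, dist_comm (s.1 b) r]
          exact this
        have e3 := dist_triangle ((run x₀ f₀ h).cfg (run x₀ f₀ h).a) (s.1 a) (t.1 a)
        linarith

theorem pot_le {S : WS M} (h : S.Good) (y : M) : S.pot ≤ 4 * S.w y - S.w (S.cfg S.b) := by
  unfold pot
  have h1 := h.alw (S.cfg S.a) y
  have h2 := h.alw (S.cfg S.f) y
  have h3 := h.tauw y
  have h4 := h.alw y y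
  rw [dist_self] at h4
  have := dist_nonneg (x := y) (y := S.cfg S.a)
  have := dist_nonneg (x := y) (y := S.cfg S.f)
  have := dist_nonneg (x := S.cfg S.a) (y := S.cfg S.f)
  linarith

theorem pot_le_three {S : WS M} (h : S.Good) {y : M} {c : ℝ} (hy : S.w y ≤ c) :
    S.pot ≤ 3 * c := by
  have h1 := pot_le h y
  have h2 := pot_le h (S.cfg S.b)
  rcases le_total (S.w y) (S.w (S.cfg S.b)) with e | e <;> linarith

theorem isCompetitive_alg (x₀ : Fin 3 → M) (f₀ : Fin 3) :
    (delayedB x₀ f₀).IsCompetitive (alg x₀ f₀) 3 := by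
  refine ⟨- (start x₀ f₀).pot, fun h => ?_⟩
  have h1 := algCost_add_pot x₀ f₀ h
  have h2 : (run x₀ f₀ h).pot / 3 ≤ (delayedB x₀ f₀).opt h := by
    refine OnlineProblem.le_opt (isAlgorithm_alg x₀ f₀) (fun s c H => ?_)
    obtain ⟨_, a, b, _, _, _, hb⟩ := offline_ge x₀ f₀ H
    have := dist_nonneg (x := (run x₀ f₀ h).cfg (run x₀ f₀ h).a) (y := s.1 a)
    have := pot_le_three (good_run x₀ f₀ h) (y := s.1 b) (c := c) (by linarith)
    linarith
  linarith

end WS

/-- In every metric space the competitiveness of version (b) with three servers is at most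
`3`. -/
theorem delayedB_three_le (x₀ : Fin 3 → M) (f₀ : Fin 3) :
    (delayedB x₀ f₀).competitiveness ≤ 3 := by
  have := OnlineProblem.competitiveness_le (WS.isAlgorithm_alg x₀ f₀) 3
    (by exact_mod_cast WS.isCompetitive_alg x₀ f₀)
  exact_mod_cast this

end Pool.Agent.helper59.DelayedServer
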