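import Mathlib
import Pool.Agent.helper59.DelayedEmbed

open scoped ENNReal NNReal

namespace Pool.Agent.helper59.DelayedServer

universe u

variable {M : Type u} [MetricSpace M] {k : ℕ}

/-- What one step of the simulation for version (a) achieves. -/
structure StepRelA (y₀ : Fin k → M) (A : List M → Fin k → M) (S : Mem M M k)
    (r : M) (S' : Mem M M k) : Prop where
  hr : S'.Y S'.f = r
  hold : S'.Y S.f = S.Y S.f
  hs : S'.s = r
  alt : (r = S.s ∧ S' = S) ∨ (r ≠ S.s ∧ S'.n = S.n + 1 ∧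
    (∃ j, S'.hN = r :: S.s :: hammer S.s r j S.hN) ∧
    moveCost S.Y S'.Y + track id S'.Y (A S'.hN) S'.σ + (kServer y₀).algCost A S.hN
      ≤ track id S.Y (A S.hN) S.σ + (kServer y₀).algCost A S'.hN + 2 * err S.n)

theorem exists_stepA (hk : 2 ≤ k)
    {y₀ : Fin k → M} {A : List M → Fin k → M} (hA : (kServer y₀).IsAlgorithm A)
    {C : ℝ} (hC0 : 0 ≤ C) (hC : (kServer y₀).IsCompetitive A C) (S : Mem M M k)
    (hS : S.s = S.Y S.f) (r : M) :
    ∃ S' : Mem M M k, StepRelA y₀ A S r S' := by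
  by_cases hrs : r = S.s
  · exact ⟨S, by rw [hrs, hS], rfl, hrs.symm, Or.inl ⟨hrs, rfl⟩⟩
  have hd : 0 < dist S.s r := dist_pos.mpr (Ne.symm hrs)
  obtain ⟨n, hn⟩ := exists_hammer hk hA hC0 hC S.s r S.hN
    (lt_min (err_pos (S.n + 1)) hd)
  rw [lt_min_iff] at hn
  obtain ⟨i, hi⟩ : ∃ i, A (r :: S.s :: hammer S.s r n S.hN) i = r := hA.2 _ _
  obtain ⟨j, hj⟩ : ∃ j, A (S.s :: hammer S.s r n S.hN) j = S.s := hA.2 _ _
  have hjd : dist (A (r :: S.s :: hammer S.s r n S.hN) j) S.s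
      ≤ moveCost (A (S.s :: hammer S.s r n S.hN)) (A (r :: S.s :: hammer S.s r n S.hN)) := by
    have := dist_le_moveCost (A (S.s :: hammer S.s r n S.hN))
      (A (r :: S.s :: hammer S.s r n S.hN)) j
    rw [hj, dist_comm] at this
    exact this
  have hij : i ≠ j := by
    rintro rfl
    rw [hi, dist_comm] at hjd
    linarith [hn.2]
  obtain ⟨τ, g, hgf, hcore⟩ := track_core (ι := (id : M → M))
    (X := A (r :: S.s :: hammer S.s r n S.hN))
    (σ := S.σ) (e := 0) isometry_id hij hi (hjd.trans hn.1.le)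
    (show dist S.s (id (S.Y S.f)) ≤ 0 by rw [hS]; exact (dist_self _).le)
    (show dist r (id r) ≤ err (S.n + 1) by rw [id, dist_self]; exact (err_pos _).le)
  refine ⟨⟨r :: S.s :: hammer S.s r n S.hN, r, Function.update S.Y g r, g, τ, S.n + 1⟩,
    ⟨Function.update_self _ _ _, Function.update_of_ne hgf.symm _ _, rfl,
      Or.inr ⟨hrs, rfl, ⟨n, rfl⟩, ?_⟩⟩⟩
  have h1 := track_triangle id S.Y (A S.hN) (A (r :: S.s :: hammer S.s r n S.hN)) S.σ
  have h2 := moveCost_le_algCost_hammer (y₀ := y₀) A S.s r S.hN n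
  have h3 := err_succ S.n
  show moveCost S.Y (Function.update S.Y g r)
    + track id (Function.update S.Y g r) (A (r :: S.s :: hammer S.s r n S.hN)) τ
    + (kServer y₀).algCost A S.hN ≤ track id S.Y (A S.hN) S.σ
      + (kServer y₀).algCost A (r :: S.s :: hammer S.s r n S.hN) + 2 * err S.n
  rw [moveCost_update]
  linarith

/-- The memory after a history, with its invariant. -/
noncomputable def runA (hk : 2 ≤ k)
    {y₀ : Fin k → M} {A : List M → Fin k → M} (hA : (kServer y₀).IsAlgorithm A)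
    {C : ℝ} (hC0 : 0 ≤ C) (hC : (kServer y₀).IsCompetitive A C)
    (x₀ : Fin k → M) (f₀ : Fin k) : List M → {S : Mem M M k // S.s = S.Y S.f}
  | [] => ⟨⟨[], x₀ f₀, x₀, f₀, Equiv.refl _, 0⟩, rfl⟩
  | r :: h =>
    let S := runA hk hA hC0 hC x₀ f₀ h
    let e := exists_stepA hk hA hC0 hC S.1 S.2 r
    ⟨e.choose, by
      have := e.choose_spec
      rw [this.hr, this.hs]⟩

section

variable (hk : 2 ≤ k) {A : List M → Fin k → M} (x₀ : Fin k → M) (f₀ : Fin k)
  (hA : (kServer x₀).IsAlgorithm A)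
  {C : ℝ} (hC0 : 0 ≤ C) (hC : (kServer x₀).IsCompetitive A C)

include hk hA hC0 hC

theorem runA_step (h : List M) (r : M) :
    StepRelA x₀ A (runA hk hA hC0 hC x₀ f₀ h).1 r (runA hk hA hC0 hC x₀ f₀ (r :: h)).1 :=
  (exists_stepA hk hA hC0 hC (runA hk hA hC0 hC x₀ f₀ h).1
    (runA hk hA hC0 hC x₀ f₀ h).2 r).choose_spec

/-- The simulating algorithm. -/
noncomputable def simAlgA (h : List M) : (Fin k → M) × Fin k :=
  ((runA hk hA hC0 hC x₀ f₀ h).1.Y, (runA hk hA hC0 hC x₀ f₀ h).1.f)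

theorem isAlgorithm_simAlgA :
    (delayedA x₀ f₀).IsAlgorithm (simAlgA hk x₀ f₀ hA hC0 hC) := by
  refine ⟨rfl, fun h r => ?_⟩
  have H := runA_step hk x₀ f₀ hA hC0 hC h r
  exact ⟨H.hr, H.hold⟩

theorem simAlgA_cost (h : List M) :
    (delayedA x₀ f₀).algCost (simAlgA hk x₀ f₀ hA hC0 hC) h
      + track id (runA hk hA hC0 hC x₀ f₀ h).1.Y
          (A (runA hk hA hC0 hC x₀ f₀ h).1.hN) (runA hk hA hC0 hC x₀ f₀ h).1.σ
      + 4 * err (runA hk hA hC0 hC x₀ f₀ h).1.n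
      ≤ (kServer x₀).algCost A (runA hk hA hC0 hC x₀ f₀ h).1.hN + 4 := by
  induction h with
  | nil =>
    have h1 : track id x₀ (A []) (Equiv.refl _) = 0 := by
      rw [hA.1]
      exact moveCost_self x₀
    show (0 : ℝ) + track id x₀ (A []) (Equiv.refl _) + 4 * err 0 ≤ 0 + 4
    rw [h1]
    unfold err
    norm_num
  | cons r h ih =>
    have H := runA_step hk x₀ f₀ hA hC0 hC h r
    have h3 : (delayedA x₀ f₀).algCost (simAlgA hk x₀ f₀ hA hC0 hC) (r :: h)
      = (delayedA x₀ f₀).algCost (simAlgA hk x₀ f₀ hA hC0 hC) h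
        + moveCost (runA hk hA hC0 hC x₀ f₀ h).1.Y
          (runA hk hA hC0 hC x₀ f₀ (r :: h)).1.Y := rfl
    rw [h3]
    rcases H.alt with ⟨_, e⟩ | ⟨_, hn, _, hcost⟩
    · rw [e, moveCost_self]
      linarith
    · have h2 := err_succ (runA hk hA hC0 hC x₀ f₀ h).1.n
      rw [hn, h2]
      linarith

theorem offline_simA {h : List M} {s : (Fin k → M) × Fin k} {c : ℝ}
    (H : (delayedA x₀ f₀).Offline h s c) :
    (runA hk hA hC0 hC x₀ f₀ h).1.s = s.1 s.2 ∧
    ∃ (z : Fin k → M) (c' : ℝ),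
      (kServer x₀).Offline (runA hk hA hC0 hC x₀ f₀ h).1.hN z c' ∧
      c' + moveCost z s.1 ≤ c := by
  refine OnlineProblem.Offline.induct (P := delayedA x₀ f₀)
    (motive := fun h (s : (Fin k → M) × Fin k) c =>
      (runA hk hA hC0 hC x₀ f₀ h).1.s = s.1 s.2 ∧
      ∃ (z : Fin k → M) (c' : ℝ),
        (kServer x₀).Offline (runA hk hA hC0 hC x₀ f₀ h).1.hN z c' ∧
        c' + moveCost z s.1 ≤ c)
    ?_ ?_ H
  · refine ⟨rfl, x₀, 0, OnlineProblem.Offline.start, ?_⟩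
    show (0 : ℝ) + moveCost x₀ x₀ ≤ 0
    rw [moveCost_self, add_zero]
  · intro h (s : (Fin k → M) × Fin k) c r (t : (Fin k → M) × Fin k) _ hst ih
    obtain ⟨htr, hold⟩ := hst
    obtain ⟨ih1, z, c', hz, hc'⟩ := ih
    have HS := runA_step hk x₀ f₀ hA hC0 hC h r
    have e7 : (delayedA x₀ f₀).cost s t = moveCost s.1 t.1 := rfl
    refine ⟨?_, ?_⟩
    · show (runA hk hA hC0 hC x₀ f₀ (r :: h)).1.s = t.1 t.2
      rw [htr, HS.hs]
    · rcases HS.alt with ⟨_, e⟩ | ⟨_, _, ⟨j, hj⟩, _⟩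
      · refine ⟨z, c', ?_, ?_⟩
        · rw [e]; exact hz
        · show c' + moveCost z t.1 ≤ c + (delayedA x₀ f₀).cost s t
          have := moveCost_triangle z s.1 t.1
          rw [e7]
          linarith
      · refine ⟨t.1, c' + moveCost z t.1, ?_, ?_⟩
        · rw [hj]
          exact offline_hammer hz ⟨s.2, by rw [hold, ih1]⟩ ⟨t.2, htr⟩ j
        · show c' + moveCost z t.1 + moveCost t.1 t.1 ≤ c + (delayedA x₀ f₀).cost s t
          have := moveCost_triangle z s.1 t.1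
          rw [e7, moveCost_self]
          linarith

theorem isCompetitive_simAlgA :
    (delayedA x₀ f₀).IsCompetitive (simAlgA hk x₀ f₀ hA hC0 hC) C := by
  obtain ⟨K, hK⟩ := id hC
  refine ⟨K + 4, fun h => ?_⟩
  have h1 := simAlgA_cost hk x₀ f₀ hA hC0 hC h
  have h2 := track_nonneg id (runA hk hA hC0 hC x₀ f₀ h).1.Y
    (A (runA hk hA hC0 hC x₀ f₀ h).1.hN) (runA hk hA hC0 hC x₀ f₀ h).1.σ
  have h3 := err_pos (runA hk hA hC0 hC x₀ f₀ h).1.n
  have h4 := hK (runA hk hA hC0 hC x₀ f₀ h).1.hN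
  have h5 : (kServer x₀).opt (runA hk hA hC0 hC x₀ f₀ h).1.hN ≤ (delayedA x₀ f₀).opt h := by
    refine OnlineProblem.le_opt (isAlgorithm_simAlgA hk x₀ f₀ hA hC0 hC) ?_
    intro s c H
    obtain ⟨_, z, c', hz, hc'⟩ := offline_simA hk x₀ f₀ hA hC0 hC H
    have a1 := OnlineProblem.opt_le (fun s t => moveCost_nonneg s t) hz
    have a2 := moveCost_nonneg z s.1
    linarith
  have h6 := mul_le_mul_of_nonneg_left h5 hC0
  linarith

end

/-- Version (a) of the delayed `k`-server problem is at most as hard as the ordinary one, in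
every metric space. -/
theorem delayedA_le_kServer (hk : 2 ≤ k) (x₀ : Fin k → M) (f₀ : Fin k) :
    (delayedA x₀ f₀).competitiveness ≤ (kServer x₀).competitiveness :=
  OnlineProblem.le_competitiveness (fun C _ hA hC =>
    OnlineProblem.competitiveness_le
      (isAlgorithm_simAlgA hk x₀ f₀ hA C.coe_nonneg hC) C
      (isCompetitive_simAlgA hk x₀ f₀ hA C.coe_nonneg hC))

end Pool.Agent.helper59.DelayedServer
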