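import Mathlib
import Pool.Agent.helper59.DelayedBasic

open scoped ENNReal NNReal

namespace Pool.Agent.helper59.DelayedServer

universe u

variable {M : Type u} [MetricSpace M] {k : ℕ}

theorem two_le_moveCost {x y : Fin k → M} {i j : Fin k} (hij : i ≠ j)
    (hi : dist (x i) (y i) = 1) (hj : dist (x j) (y j) = 1) : 2 ≤ moveCost x y := by
  have h : ∑ m ∈ {i, j}, dist (x m) (y m) ≤ moveCost x y :=
    Finset.sum_le_sum_of_subset_of_nonneg (Finset.subset_univ _) (fun _ _ _ => dist_nonneg)
  rw [Finset.sum_pair hij, hi, hj] at h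
  linarith

theorem kServer_eq_zero [Fintype M] (hcard : Fintype.card M = k) (x₀ : Fin k → M) :
    (kServer x₀).competitiveness = 0 := by
  have e : Fin k ≃ M := (Fintype.equivFinOfCardEq hcard).symm
  let A : List M → Fin k → M := fun h => match h with
    | [] => x₀
    | _ :: _ => e
  have hA : (kServer x₀).IsAlgorithm A :=
    ⟨rfl, fun h r => ⟨e.symm r, e.apply_symm_apply r⟩⟩
  have hC : (kServer x₀).IsCompetitive A ((0 : ℝ≥0) : ℝ) := by
    refine ⟨moveCost x₀ e, fun h => ?_⟩
    have hcost : ∀ (r : M) (h : List M), (kServer x₀).algCost A (r :: h) = moveCost x₀ e := by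
      intro r h
      induction h generalizing r with
      | nil =>
        show 0 + moveCost x₀ e = moveCost x₀ e
        rw [zero_add]
      | cons r' h ih =>
        show (kServer x₀).algCost A (r' :: h) + moveCost (e : Fin k → M) e = moveCost x₀ e
        rw [ih r', moveCost_self, add_zero]
    have h0 := moveCost_nonneg x₀ e
    rw [NNReal.coe_zero, zero_mul, zero_add]
    cases h with
    | nil => exact h0
    | cons r h => rw [hcost r h]
  have := OnlineProblem.competitiveness_le hA 0 hC
  simpa using this

/-- The schedules kept by the adversary: after the history `h`, whose last two requests are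
both `r`, there is for every other point `q` a schedule of cost `a q` that has two servers at
`r` and covers all points except `q`. -/
def Family (x₀ : Fin k → M) (f₀ : Fin k) (h : List M) (r : M) (a : M → ℝ) : Prop :=
  ∀ q, q ≠ r → ∃ (z : Fin k → M) (f g : Fin k), (delayedB x₀ f₀).Offline h (z, f) (a q) ∧
    g ≠ f ∧ z f = r ∧ z g = r ∧ ∀ p, p ≠ q → ∃ i, z i = p

open Classical in
theorem Family.next (hunif : ∀ x y : M, x ≠ y → dist x y = 1) {x₀ : Fin k → M} {f₀ : Fin k}
    {h : List M} {r : M} {a : M → ℝ} (H : Family x₀ f₀ h r a) {r' : M} (hr : r' ≠ r) :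
    Family x₀ f₀ (r' :: r' :: h) r' (fun q => if q = r then a r' + 2 else a q + 1) := by
  intro q hq
  have hrr : dist r r' = 1 := hunif r r' hr.symm
  by_cases hqr : q = r
  · obtain ⟨z, f, g, hoff, hgf, hzf, hzg, hcov⟩ := H r' hr
    have s1 := OnlineProblem.Offline.serve (P := delayedB x₀ f₀) r'
      (Function.update z g r', g) hoff
      ⟨hgf, Function.update_self _ _ _, Function.update_of_ne hgf.symm _ _⟩
    have s2 := OnlineProblem.Offline.serve (P := delayedB x₀ f₀) r'
      (Function.update (Function.update z g r') f r', f) s1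
      ⟨hgf.symm, Function.update_self _ _ _, Function.update_of_ne hgf _ _⟩
    have c1 : (delayedB x₀ f₀).cost (z, f) (Function.update z g r', g) = 1 := by
      show moveCost z (Function.update z g r') = 1
      rw [moveCost_update, hzg, hrr]
    have c2 : (delayedB x₀ f₀).cost (Function.update z g r', g)
        (Function.update (Function.update z g r') f r', f) = 1 := by
      show moveCost (Function.update z g r') (Function.update (Function.update z g r') f r') = 1
      rw [moveCost_update, Function.update_of_ne hgf.symm, hzf, hrr]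
    rw [c1, c2] at s2
    refine ⟨Function.update (Function.update z g r') f r', f, g, ?_, hgf,
      Function.update_self _ _ _, ?_, ?_⟩
    · show (delayedB x₀ f₀).Offline (r' :: r' :: h) _ (if q = r then a r' + 2 else a q + 1)
      rw [if_pos hqr]
      have : a r' + 1 + 1 = a r' + 2 := by ring
      rw [← this]
      exact s2
    · rw [Function.update_of_ne hgf, Function.update_self]
    · intro p hp
      by_cases hpr : p = r'
      · exact ⟨f, by rw [Function.update_self, hpr]⟩
      · obtain ⟨i, hi⟩ := hcov p hpr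
        have hif : i ≠ f := by
          rintro rfl
          exact hp (by rw [← hi, hzf, hqr])
        have hig : i ≠ g := by
          rintro rfl
          exact hp (by rw [← hi, hzg, hqr])
        exact ⟨i, by rw [Function.update_of_ne hif, Function.update_of_ne hig, hi]⟩
  · obtain ⟨z, f, g, hoff, hgf, hzf, hzg, hcov⟩ := H q hqr
    obtain ⟨b, hb⟩ := hcov r' hq.symm
    have hbf : b ≠ f := by
      rintro rfl
      exact hr (by rw [← hb, hzf])
    have hbg : b ≠ g := by
      rintro rfl
      exact hr (by rw [← hb, hzg])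
    have s1 := OnlineProblem.Offline.serve (P := delayedB x₀ f₀) r' (z, b) hoff
      ⟨hbf, hb, rfl⟩
    have s2 := OnlineProblem.Offline.serve (P := delayedB x₀ f₀) r'
      (Function.update z g r', g) s1
      ⟨hbg.symm, Function.update_self _ _ _, Function.update_of_ne hbg _ _⟩
    have c1 : (delayedB x₀ f₀).cost (z, f) (z, b) = 0 := moveCost_self z
    have c2 : (delayedB x₀ f₀).cost (z, b) (Function.update z g r', g) = 1 := by
      show moveCost z (Function.update z g r') = 1
      rw [moveCost_update, hzg, hrr]
    rw [c1, c2, add_zero] at s2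
    refine ⟨Function.update z g r', g, b, ?_, hbg, Function.update_self _ _ _, ?_, ?_⟩
    · show (delayedB x₀ f₀).Offline (r' :: r' :: h) _ (if q = r then a r' + 2 else a q + 1)
      rw [if_neg hqr]
      exact s2
    · rw [Function.update_of_ne hbg, hb]
    · intro p hp
      by_cases hpr : p = r
      · exact ⟨f, by rw [Function.update_of_ne hgf.symm, hzf, hpr]⟩
      · obtain ⟨i, hi⟩ := hcov p hp
        have hig : i ≠ g := by
          rintro rfl
          exact hpr (by rw [← hi, hzg])
        exact ⟨i, by rw [Function.update_of_ne hig, hi]⟩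

theorem exists_equiv [Fintype M] (hcard : Fintype.card M = k) {f g : Fin k} (hfg : g ≠ f)
    {p q : M} (hpq : q ≠ p) : ∃ e : Fin k ≃ M, e f = p ∧ e g = q := by
  classical
  have e₀ : Fin k ≃ M := (Fintype.equivFinOfCardEq hcard).symm
  have h1 : (e₀.trans (Equiv.swap (e₀ f) p)) f = p := by simp
  set e₁ := e₀.trans (Equiv.swap (e₀ f) p) with he₁
  refine ⟨e₁.trans (Equiv.swap (e₁ g) q), ?_, by simp⟩
  rw [Equiv.trans_apply, h1, Equiv.swap_apply_of_ne_of_ne _ hpq.symm]
  intro e
  exact hfg (e₁.injective (by rw [h1]; exact e.symm))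

open Classical in
theorem Family.exists_start [Fintype M] (hk : 2 ≤ k) (hcard : Fintype.card M = k)
    (x₀ : Fin k → M) (f₀ : Fin k) :
    ∃ a, Family x₀ f₀ [x₀ f₀, x₀ f₀] (x₀ f₀) a := by
  obtain ⟨g, hg⟩ : ∃ g : Fin k, g ≠ f₀ := by
    have : Nontrivial (Fin k) := Fin.nontrivial_iff_two_le.mpr hk
    exact exists_ne f₀
  have key : ∀ q : M, ∃ c : ℝ, q ≠ x₀ f₀ → ∃ (z : Fin k → M) (f g : Fin k),
      (delayedB x₀ f₀).Offline [x₀ f₀, x₀ f₀] (z, f) c ∧
      g ≠ f ∧ z f = x₀ f₀ ∧ z g = x₀ f₀ ∧ ∀ p, p ≠ q → ∃ i, z i = p := by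
    intro q
    by_cases hq : q = x₀ f₀
    · exact ⟨0, fun h => absurd hq h⟩
    obtain ⟨e, he1, he2⟩ := exists_equiv hcard hg hq
    let z : Fin k → M := fun i => if i = g then x₀ f₀ else e i
    have hzf : z f₀ = x₀ f₀ := by
      show (if f₀ = g then x₀ f₀ else e f₀) = x₀ f₀
      rw [if_neg hg.symm, he1]
    have hzg : z g = x₀ f₀ := if_pos rfl
    have s1 := OnlineProblem.Offline.serve (P := delayedB x₀ f₀) (x₀ f₀)
      (Function.update x₀ g (x₀ f₀), g) OnlineProblem.Offline.start
      ⟨hg, Function.update_self _ _ _, Function.update_of_ne hg.symm _ _⟩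
    have s2 := OnlineProblem.Offline.serve (P := delayedB x₀ f₀) (x₀ f₀) (z, f₀) s1
      ⟨hg.symm, hzf, by
        show z g = Function.update x₀ g (x₀ f₀) g
        rw [hzg, Function.update_self]⟩
    refine ⟨_, fun _ => ⟨z, f₀, g, s2, hg, hzf, hzg, ?_⟩⟩
    intro p hp
    refine ⟨e.symm p, ?_⟩
    have : e.symm p ≠ g := by
      intro h
      exact hp (by rw [← he2, ← h, Equiv.apply_symm_apply])
    show (if e.symm p = g then x₀ f₀ else e (e.symm p)) = p
    rw [if_neg this, Equiv.apply_symm_apply]
  choose a ha using key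
  exact ⟨a, fun q hq => ha q hq⟩

/-- In a uniform space with exactly `k` points, version (b) has competitiveness at least
`2 - 2 / k`. -/
theorem delayedB_ge [Fintype M] (hk : 2 ≤ k) (hcard : Fintype.card M = k)
    (hunif : ∀ x y : M, x ≠ y → dist x y = 1) (x₀ : Fin k → M) (f₀ : Fin k) :
    ENNReal.ofReal (2 - 2 / k) ≤ (delayedB x₀ f₀).competitiveness := by
  classical
  refine OnlineProblem.le_competitiveness (fun C A hA ⟨K, hK⟩ => ?_)
  suffices hkC : (2 : ℝ) - 2 / k ≤ (C : ℝ) by
    rw [← ENNReal.ofReal_coe_nnreal]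
    exact ENNReal.ofReal_le_ofReal hkC
  by_contra hlt
  rw [not_le] at hlt
  obtain ⟨a, ha⟩ := Family.exists_start hk hcard x₀ f₀
  have hnn : ∀ s t, 0 ≤ (delayedB x₀ f₀).cost s t := fun s t => moveCost_nonneg s.1 t.1
  -- after two equal requests two servers are at the same point
  have htwo : ∀ (h : List M) (r : M), ∃ i j : Fin k, i ≠ j ∧ (A (r :: r :: h)).1 i = r ∧
      (A (r :: r :: h)).1 j = r ∧ (i = (A (r :: h)).2 ∧ j = (A (r :: r :: h)).2) := by
    intro h r
    have h1 := hA.2 h r
    have h2 := hA.2 (r :: h) r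
    refine ⟨(A (r :: h)).2, (A (r :: r :: h)).2, h2.1.symm, ?_, h2.2.1, rfl, rfl⟩
    rw [h2.2.2]
    exact h1.2.1
  have key : ∀ n : ℕ, ∃ (h : List M) (r : M) (b : M → ℝ),
      (∃ i j : Fin k, i ≠ j ∧ (A h).1 i = r ∧ (A h).1 j = r) ∧ Family x₀ f₀ h r b ∧
      2 * (n : ℝ) ≤ (delayedB x₀ f₀).algCost A h ∧
      ∑ q ∈ Finset.univ.filter (· ≠ r), b q
        ≤ ∑ q ∈ Finset.univ.filter (· ≠ x₀ f₀), a q + k * n := by
    intro n
    induction n with
    | zero =>
      obtain ⟨i, j, hij, hi, hj, _⟩ := htwo [] (x₀ f₀)
      refine ⟨[x₀ f₀, x₀ f₀], x₀ f₀, a, ⟨i, j, hij, hi, hj⟩, ha, ?_, by simp⟩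
      have := (hA.offline [x₀ f₀, x₀ f₀]).nonneg hnn
      simpa using this
    | succ n ih =>
      obtain ⟨h, r, b, ⟨i, j, hij, hi, hj⟩, hfam, hcost, hsum⟩ := ih
      -- a point that is not covered
      obtain ⟨r', hr'⟩ : ∃ r' : M, ∀ i, (A h).1 i ≠ r' := by
        by_contra hcon
        push Not at hcon
        have hsurj : Function.Surjective (A h).1 := fun p => hcon p
        have hbij := (Fintype.bijective_iff_surjective_and_card (A h).1).mpr
          ⟨hsurj, by rw [hcard, Fintype.card_fin]⟩
        exact hij (hbij.1 (hi.trans hj.symm))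
      have hrr : r' ≠ r := fun e => hr' i (by rw [hi, e])
      obtain ⟨i', j', hij', hi', hj', -⟩ := htwo h r'
      refine ⟨r' :: r' :: h, r', _, ⟨i', j', hij', hi', hj'⟩, hfam.next hunif hrr, ?_, ?_⟩
      · have c1 : (delayedB x₀ f₀).algCost A (r' :: r' :: h)
          = (delayedB x₀ f₀).algCost A h + moveCost (A h).1 (A (r' :: h)).1
            + moveCost (A (r' :: h)).1 (A (r' :: r' :: h)).1 := rfl
        have c2 := moveCost_triangle (A h).1 (A (r' :: h)).1 (A (r' :: r' :: h)).1
        have c3 : 2 ≤ moveCost (A h).1 (A (r' :: r' :: h)).1 := by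
          refine two_le_moveCost hij' (hunif _ _ ?_) (hunif _ _ ?_)
          · rw [hi']; exact hr' i'
          · rw [hj']; exact hr' j'
        rw [c1]
        push_cast
        linarith
      · have e1 : Finset.univ.filter (· ≠ r')
            = insert r ((Finset.univ.filter (· ≠ r')).filter (· ≠ r)) := by
          ext x
          simp only [Finset.mem_filter, Finset.mem_insert, Finset.mem_univ, true_and]
          constructor
          · intro hx
            by_cases hxl : x = r
            · exact Or.inl hxl
            · exact Or.inr ⟨hx, hxl⟩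
          · rintro (rfl | hx)
            · exact hrr.symm
            · exact hx.1
        have e2 : Finset.univ.filter (· ≠ r)
            = insert r' ((Finset.univ.filter (· ≠ r')).filter (· ≠ r)) := by
          ext x
          simp only [Finset.mem_filter, Finset.mem_insert, Finset.mem_univ, true_and]
          constructor
          · intro hx
            by_cases hxl : x = r'
            · exact Or.inl hxl
            · exact Or.inr ⟨hxl, hx⟩
          · rintro (rfl | hx)
            · exact hrr
            · exact hx.2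
        have hcardF : ((Finset.univ.filter (· ≠ r')).filter (· ≠ r)).card + 2 = k := by
          have : (Finset.univ.filter (· ≠ r')).filter (· ≠ r)
              = ((Finset.univ : Finset M).erase r').erase r := by
            ext x
            simp [and_comm]
          rw [this, Finset.card_erase_of_mem (Finset.mem_erase.mpr
            ⟨hrr.symm, Finset.mem_univ _⟩), Finset.card_erase_of_mem (Finset.mem_univ _),
            Finset.card_univ, hcard]
          omega
        have h3 := hsum
        rw [e2, Finset.sum_insert (by simp)] at h3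
        rw [e1, Finset.sum_insert (by simp), if_pos rfl]
        have e3 : ∑ x ∈ (Finset.univ.filter (· ≠ r')).filter (· ≠ r),
            (if x = r then b r' + 2 else b x + 1)
            = ∑ x ∈ (Finset.univ.filter (· ≠ r')).filter (· ≠ r), b x + (k - 2) := by
          have e4 : ∑ x ∈ (Finset.univ.filter (· ≠ r')).filter (· ≠ r),
            (if x = r then b r' + 2 else b x + 1)
            = ∑ x ∈ (Finset.univ.filter (· ≠ r')).filter (· ≠ r), (b x + 1) := by
            refine Finset.sum_congr rfl (fun x hx => ?_)
            rw [if_neg (Finset.mem_filter.mp hx).2]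
          rw [e4, Finset.sum_add_distrib, Finset.sum_const, nsmul_eq_mul, mul_one]
          have : ((((Finset.univ.filter (· ≠ r')).filter (· ≠ r)).card : ℕ) : ℝ) + 2 = k := by
            exact_mod_cast hcardF
          linarith
        rw [e3]
        push_cast
        linarith
  set K₂ := ∑ q ∈ Finset.univ.filter (· ≠ x₀ f₀), a q with hK₂
  have hk0 : (0 : ℝ) < k := by
    have : (0 : ℕ) < k := by omega
    exact_mod_cast this
  have hk1 : (1 : ℝ) ≤ k := by
    have : (1 : ℕ) ≤ k := by omega
    exact_mod_cast this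
  have bound : ∀ n : ℕ, (n : ℝ) * (2 * (k - 1) - C * k) ≤ C * K₂ + (k - 1) * K := by
    intro n
    obtain ⟨h, r, b, _, hfam, hcost, hsum⟩ := key n
    have c1 : ((k : ℝ) - 1) * (delayedB x₀ f₀).opt h ≤ K₂ + k * n := by
      refine le_trans ?_ hsum
      have hcard' : ((Finset.univ : Finset M).filter (· ≠ r)).card + 1 = k := by
        have : (Finset.univ : Finset M).filter (· ≠ r) = Finset.univ.erase r := by
          ext x
          simp
        rw [this, Finset.card_erase_of_mem (Finset.mem_univ _), Finset.card_univ, hcard]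
        omega
      have hcard'' : ((((Finset.univ : Finset M).filter (· ≠ r)).card : ℕ) : ℝ) + 1 = k := by
        exact_mod_cast hcard'
      have : ∑ x ∈ (Finset.univ : Finset M).filter (· ≠ r), (delayedB x₀ f₀).opt h
          = ((k : ℝ) - 1) * (delayedB x₀ f₀).opt h := by
        rw [Finset.sum_const, nsmul_eq_mul]
        congr 1
        linarith
      rw [← this]
      refine Finset.sum_le_sum (fun x hx => ?_)
      rw [Finset.mem_filter] at hx
      obtain ⟨z, f, g, hz, _⟩ := hfam x hx.2
      exact OnlineProblem.opt_le hnn hz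
    have c2 := hK h
    have hC0 : (0 : ℝ) ≤ C := C.coe_nonneg
    have e1 := mul_le_mul_of_nonneg_left c1 hC0
    have e2 : 2 * (n : ℝ) ≤ C * (delayedB x₀ f₀).opt h + K := hcost.trans c2
    have e3 := mul_le_mul_of_nonneg_left e2 (sub_nonneg.mpr hk1)
    nlinarith
  have hpos : 0 < 2 * ((k : ℝ) - 1) - C * k := by
    have : (C : ℝ) * k < (2 - 2 / k) * k := mul_lt_mul_of_pos_right hlt hk0
    have h2 : ((2 : ℝ) - 2 / k) * k = 2 * (k - 1) := by
      field_simp
    linarith
  obtain ⟨n, hn⟩ := exists_nat_gt ((C * K₂ + (k - 1) * K) / (2 * ((k : ℝ) - 1) - C * k))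
  rw [div_lt_iff₀ hpos] at hn
  have := bound n
  linarith

end Pool.Agent.helper59.DelayedServer
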